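import Mathlib

/-!
# Moment-curve reductions of cycles: the Lefschetz property exactly up to dimension one
-/

namespace Pool.Agent.Results.MP_487945_co.Cycles

open MvPolynomial

section defs

variable {K : Type} [Field K] {n : ℕ}

/-- A simplicial `(d-1)`-cycle with coefficients in `K` on the vertex set `Fin n`: a function
on vertex sets, supported on the sets with `d` elements, with vanishing simplicial boundary. -/
def IsCycle (d : ℕ) (μ : Finset (Fin n) → K) : Prop :=
  (∀ s, s.card ≠ d → μ s = 0) ∧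
  ∀ τ : Finset (Fin n), τ.card + 1 = d →
    ∑ v ∈ τᶜ, (-1 : K) ^ (τ.filter (· < v)).card * μ (insert v τ) = 0

/-- The support `|μ|` of a cycle: all subsets of sets `σ` with `μ σ ≠ 0`. -/
def supp (μ : Finset (Fin n) → K) : Set (Finset (Fin n)) :=
  {s | ∃ σ, s ⊆ σ ∧ μ σ ≠ 0}

/-- The face ideal of a complex `D`. -/
noncomputable def faceIdeal (K : Type) [Field K] {n : ℕ} (D : Set (Finset (Fin n))) :
    Ideal (MvPolynomial (Fin n) K) :=
  Ideal.span {m | ∃ s : Finset (Fin n), s ∉ D ∧ m = ∏ v ∈ s, X v}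

/-- The linear form `θ_j = ∑ t_v ^ j x_v`. -/
noncomputable def theta (t : Fin n → K) (j : ℕ) : MvPolynomial (Fin n) K :=
  ∑ v, C (t v ^ j) * X v

/-- The face ideal together with `θ_1, …, θ_d`: the ideal defining `A(D)`. -/
noncomputable def momentIdeal (d : ℕ) (D : Set (Finset (Fin n))) (t : Fin n → K) :
    Ideal (MvPolynomial (Fin n) K) :=
  faceIdeal K D ⊔ Ideal.span (Set.range fun j : Fin d => theta t (j.val + 1))

/-- `φ` is the evaluation at the cycle `μ`: a linear functional on the polynomial ring that lives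
in degree `d`, vanishes on the ideal defining `A(|μ|)`, and satisfies
`det (p_{v_1}, …, p_{v_d}) φ(x_{v_1} ⋯ x_{v_d}) = μ({v_1, …, v_d})` for `v_1 < ⋯ < v_d`, where
`p_v = (t_v, t_v ^ 2, …, t_v ^ d)`. -/
structure IsEval (d : ℕ) (t : Fin n → K) (μ : Finset (Fin n) → K)
    (φ : MvPolynomial (Fin n) K →ₗ[K] K) : Prop where
  homog : ∀ e, e ≠ d → ∀ f : MvPolynomial (Fin n) K, f.IsHomogeneous e → φ f = 0
  ideal : ∀ f ∈ momentIdeal d (supp μ) t, φ f = 0
  facet : ∀ e : Fin d → Fin n, StrictMono e →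
    Matrix.det (Matrix.of fun i j : Fin d => t (e j) ^ (i.val + 1)) * φ (∏ i, X (e i)) =
      μ (Finset.univ.image e)

/-- `f`, of degree `k`, represents zero in `B^k(μ)`: it pairs to zero with everything of the
complementary degree. -/
def Null (d k : ℕ) (φ : MvPolynomial (Fin n) K →ₗ[K] K) (f : MvPolynomial (Fin n) K) : Prop :=
  ∀ g : MvPolynomial (Fin n) K, g.IsHomogeneous (d - k) → φ (f * g) = 0

/-- The hard Lefschetz property of `B(μ)`: some linear form `l` makes multiplication by
`l ^ (d - 2 k)` from `B^k` to `B^(d-k)` injective and surjective for all `k ≤ d / 2`. -/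
def Lefschetz (d : ℕ) (φ : MvPolynomial (Fin n) K →ₗ[K] K) : Prop :=
  ∃ l : MvPolynomial (Fin n) K, l.IsHomogeneous 1 ∧ ∀ k, 2 * k ≤ d →
    (∀ f : MvPolynomial (Fin n) K, f.IsHomogeneous k →
      Null d (d - k) φ (l ^ (d - 2 * k) * f) → Null d k φ f) ∧
    ∀ g : MvPolynomial (Fin n) K, g.IsHomogeneous (d - k) →
      ∃ f : MvPolynomial (Fin n) K, f.IsHomogeneous k ∧
        Null d (d - k) φ (g - l ^ (d - 2 * k) * f)

end defs

section determinants

variable {K : Type} [Field K] {n : ℕ}

/-- The product formula for the determinant. -/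
def vd (t : Fin n → K) (σ : Finset (Fin n)) : K :=
  (∏ v ∈ σ, t v) * ∏ x ∈ σ, ∏ y ∈ σ.filter (x < ·), (t y - t x)

lemma vd_ne_zero (t : Fin n → K) (ht : Function.Injective t) (ht0 : ∀ v, t v ≠ 0)
    (σ : Finset (Fin n)) : vd t σ ≠ 0 := by
  refine mul_ne_zero (Finset.prod_ne_zero_iff.2 fun v _ => ht0 v)
    (Finset.prod_ne_zero_iff.2 fun x _ => Finset.prod_ne_zero_iff.2 fun y hy => ?_)
  rw [Finset.mem_filter] at hy
  exact sub_ne_zero.2 (ht.ne hy.2.ne')

lemma det_eq_vd (d : ℕ) (t : Fin n → K) (e : Fin d → Fin n) (he : StrictMono e) :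
    Matrix.det (Matrix.of fun i j : Fin d => t (e j) ^ (i.val + 1)) =
      vd t (Finset.univ.image e) := by
  have h1 : (Matrix.of fun i j : Fin d => t (e j) ^ (i.val + 1)) =
      Matrix.of (fun i j : Fin d => t (e j) * (Matrix.vandermonde (fun k => t (e k))).transpose i j) := by
    ext i j
    simp [Matrix.vandermonde_apply, pow_succ, mul_comm]
  rw [h1, Matrix.det_mul_row, Matrix.det_transpose, Matrix.det_vandermonde, vd,
    Finset.prod_image he.injective.injOn, Finset.prod_image he.injective.injOn]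
  congr 1
  refine Finset.prod_congr rfl fun i _ => ?_
  have : (Finset.univ.image e).filter (e i < ·) = (Finset.Ioi i).image e := by
    ext x
    simp only [Finset.mem_filter, Finset.mem_image, Finset.mem_univ, true_and, Finset.mem_Ioi]
    constructor
    · rintro ⟨⟨j, rfl⟩, h⟩
      exact ⟨j, he.lt_iff_lt.1 h, rfl⟩
    · rintro ⟨j, h, rfl⟩
      exact ⟨⟨j, rfl⟩, he h⟩
  rw [this, Finset.prod_image he.injective.injOn]

lemma vd_insert (t : Fin n → K) (τ : Finset (Fin n)) (v : Fin n) (hv : v ∉ τ) :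
    (-1 : K) ^ (τ.filter (· < v)).card * vd t (insert v τ) =
      (-1) ^ τ.card * (vd t τ * (t v * ∏ u ∈ τ, (t v - t u))) := by
  have h1 : (insert v τ).filter (v < ·) = τ.filter (v < ·) := by
    ext x; simp only [Finset.mem_filter, Finset.mem_insert]
    constructor
    · rintro ⟨rfl | h, h'⟩
      · exact absurd h' (lt_irrefl _)
      · exact ⟨h, h'⟩
    · rintro ⟨h, h'⟩
      exact ⟨Or.inr h, h'⟩
  have h2 : ∀ x ∈ τ, ∏ y ∈ (insert v τ).filter (x < ·), (t y - t x) =
      (if x < v then (t v - t x) else 1) * ∏ y ∈ τ.filter (x < ·), (t y - t x) := by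
    intro x _
    split_ifs with h
    · rw [Finset.filter_insert, if_pos h, Finset.prod_insert (by simp [hv])]
    · rw [Finset.filter_insert, if_neg h, one_mul]
  rw [vd, Finset.prod_insert hv, Finset.prod_insert hv, h1, Finset.prod_congr rfl h2,
    Finset.prod_mul_distrib, vd]
  have h3 : (∏ y ∈ τ.filter (v < ·), (t y - t v)) =
      (-1) ^ (τ.filter (v < ·)).card * ∏ y ∈ τ.filter (v < ·), (t v - t y) := by
    rw [← Finset.prod_const, ← Finset.prod_mul_distrib]
    exact Finset.prod_congr rfl fun y _ => by ring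
  have h4 : (∏ x ∈ τ, if x < v then (t v - t x) else 1) =
      ∏ x ∈ τ.filter (· < v), (t v - t x) := by
    rw [Finset.prod_filter]
  have h5 : τ.filter (v < ·) = τ.filter (fun x => ¬ x < v) := by
    ext x
    simp only [Finset.mem_filter, not_lt]
    constructor
    · rintro ⟨h, h'⟩; exact ⟨h, h'.le⟩
    · rintro ⟨h, h'⟩
      exact ⟨h, lt_of_le_of_ne h' (by rintro rfl; exact hv h)⟩
  have h6 : (∏ x ∈ τ.filter (· < v), (t v - t x)) * ∏ y ∈ τ.filter (v < ·), (t v - t y) =
      ∏ u ∈ τ, (t v - t u) := by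
    rw [h5, Finset.prod_filter_mul_prod_filter_not]
  have h7 : (-1 : K) ^ (τ.filter (· < v)).card * (-1) ^ (τ.filter (v < ·)).card =
      (-1) ^ τ.card := by
    rw [← pow_add, h5, Finset.card_filter_add_card_filter_not]
  rw [h3, h4, ← h6, ← h7]
  ring

end determinants

section reduction

variable {K : Type} [Field K] {n : ℕ}

/-- Any polynomial of degree at most `d` with zero constant term gives a linear relation. -/
lemma poly_relation (d : ℕ) (t : Fin n → K) (q : Polynomial K) (hq : q.natDegree ≤ d)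
    (hq0 : q.coeff 0 = 0) (φ : MvPolynomial (Fin n) K →ₗ[K] K)
    (hφ : ∀ j < d, ∀ g, φ (g * theta t (j + 1)) = 0) (g : MvPolynomial (Fin n) K) :
    ∑ v, q.eval (t v) * φ (g * X v) = 0 := by
  have h : g * ∑ v, C (q.eval (t v)) * (X v : MvPolynomial (Fin n) K) =
      ∑ j : Fin d, q.coeff (j.val + 1) • (g * theta t (j.val + 1)) := by
    simp_rw [theta, Finset.mul_sum, Finset.smul_sum]
    rw [Finset.sum_comm]
    refine Finset.sum_congr rfl fun v _ => ?_
    rw [Polynomial.eval_eq_sum_range' (n := d + 1) (by omega), Finset.sum_range_succ']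
    rw [hq0, zero_mul, add_zero, map_sum, Finset.sum_mul, Finset.mul_sum, Finset.sum_range]
    refine Finset.sum_congr rfl fun j _ => ?_
    rw [map_mul, smul_eq_C_mul]
    ring
  have h3 : φ (∑ j : Fin d, q.coeff (j.val + 1) • (g * theta t (j.val + 1))) = 0 := by
    rw [map_sum]
    exact Finset.sum_eq_zero fun j _ => by rw [map_smul, hφ j.val j.2, smul_zero]
  rw [← h] at h3
  rw [← h3, Finset.mul_sum, map_sum]
  refine Finset.sum_congr rfl fun v _ => ?_
  rw [show g * (C (q.eval (t v)) * X v) = q.eval (t v) • (g * X v) by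
    rw [smul_eq_C_mul]; ring, map_smul, smul_eq_mul]

/-- The product of the variables in `σ`. -/
noncomputable def xprod (K : Type) [Field K] {n : ℕ} (σ : Finset (Fin n)) :
    MvPolynomial (Fin n) K := ∏ v ∈ σ, X v

lemma monomial_of_card (a : Fin n →₀ ℕ) (h : a.support.card = a.degree) :
    monomial a (1 : K) = xprod K a.support := by
  have h1 : ∀ v ∈ a.support, a v = 1 := by
    have hd : a.degree = ∑ v ∈ a.support, a v := rfl
    by_contra hc
    push Not at hc
    obtain ⟨v, hv, hv1⟩ := hc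
    have h2 : ∀ u ∈ a.support, 1 ≤ a u := fun u hu =>
      Nat.one_le_iff_ne_zero.2 (Finsupp.mem_support_iff.1 hu)
    have h3 : ∑ u ∈ a.support, 1 < ∑ u ∈ a.support, a u :=
      Finset.sum_lt_sum h2 ⟨v, hv, lt_of_le_of_ne (h2 v hv) hv1.symm⟩
    rw [Finset.sum_const, smul_eq_mul, mul_one, ← hd] at h3
    omega
  rw [monomial_eq, C_1, one_mul, xprod, Finsupp.prod]
  exact Finset.prod_congr rfl fun v hv => by rw [h1 v hv, pow_one]

/-- A functional killing the multiples of the `θ_j` and all squarefree monomials on `d`-sets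
above the support of a monomial of degree `d` kills this monomial. -/
lemma kill_monomial (d : ℕ) (t : Fin n → K) (ht : Function.Injective t) (ht0 : ∀ v, t v ≠ 0)
    (φ : MvPolynomial (Fin n) K →ₗ[K] K)
    (hφ : ∀ j < d, ∀ g, φ (g * theta t (j + 1)) = 0) :
    ∀ (k : ℕ) (a : Fin n →₀ ℕ), a.degree = d → d - a.support.card = k →
      (∀ σ : Finset (Fin n), a.support ⊆ σ → σ.card = d → φ (xprod K σ) = 0) →
      φ (monomial a 1) = 0 := by
  classical
  intro k
  induction k using Nat.strong_induction_on with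
  | _ k ih =>
    intro a ha hk hσ
    have hle : a.support.card ≤ a.degree := by
      have hd : a.degree = ∑ v ∈ a.support, a v := rfl
      rw [hd, Finset.card_eq_sum_ones]
      exact Finset.sum_le_sum fun u hu => Nat.one_le_iff_ne_zero.2 (Finsupp.mem_support_iff.1 hu)
    by_cases heq : a.support.card = a.degree
    · rw [monomial_of_card a heq]
      exact hσ _ subset_rfl (by rw [heq, ha])
    · have hlt : a.support.card < d := by omega
      obtain ⟨v, hv, hv2⟩ : ∃ v ∈ a.support, 2 ≤ a v := by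
        by_contra hc
        push Not at hc
        have hd : a.degree = ∑ v ∈ a.support, a v := rfl
        have : ∑ v ∈ a.support, a v ≤ ∑ v ∈ a.support, 1 :=
          Finset.sum_le_sum fun u hu => by have := hc u hu; omega
        rw [Finset.sum_const, smul_eq_mul, mul_one, ← hd] at this
        omega
      let b : Fin n →₀ ℕ := a - Finsupp.single v 1
      have hb : b + Finsupp.single v 1 = a := by
        ext u
        simp only [b, Finsupp.coe_add, Finsupp.coe_tsub, Pi.add_apply, Pi.sub_apply,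
          Finsupp.single_apply]
        split_ifs with h
        · subst h; omega
        · omega
      have hbs : b.support = a.support := by
        ext u
        simp only [Finsupp.mem_support_iff, ← hb, Finsupp.coe_add, Pi.add_apply,
          Finsupp.single_apply]
        split_ifs with h
        · subst h
          have : b v = a v - 1 := by simp [b]
          rw [this]; omega
        · simp
      let q : Polynomial K := Polynomial.X * ∏ u ∈ a.support.erase v,
        (Polynomial.X - Polynomial.C (t u))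
      have hqd : q.natDegree ≤ d := by
        refine (Polynomial.natDegree_mul_le).trans ?_
        rw [Polynomial.natDegree_X, Polynomial.natDegree_prod_of_monic _ _
          (fun u _ => Polynomial.monic_X_sub_C _)]
        simp only [Polynomial.natDegree_X_sub_C, Finset.sum_const, smul_eq_mul, mul_one]
        rw [Finset.card_erase_of_mem hv]
        omega
      have hq0 : q.coeff 0 = 0 := by simp [q]
      have hqe : ∀ w, q.eval (t w) = t w * ∏ u ∈ a.support.erase v, (t w - t u) := by
        intro w; simp [q, Polynomial.eval_prod]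
      have hrel := poly_relation d t q hqd hq0 φ hφ (monomial b 1)
      rw [← Finset.add_sum_erase _ _ (Finset.mem_univ v), Finset.sum_eq_zero, add_zero] at hrel
      · have hqv : q.eval (t v) ≠ 0 := by
          rw [hqe]
          refine mul_ne_zero (ht0 v) (Finset.prod_ne_zero_iff.2 fun u hu => ?_)
          exact sub_ne_zero.2 (ht.ne (Finset.ne_of_mem_erase hu).symm)
        have h5 := (mul_eq_zero.1 hrel).resolve_left hqv
        rw [X, monomial_mul, hb, one_mul] at h5
        exact h5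
      · intro w hw
        by_cases hws : w ∈ a.support
        · rw [hqe, Finset.prod_eq_zero (Finset.mem_erase.2 ⟨Finset.ne_of_mem_erase hw, hws⟩)
            (sub_self _), mul_zero, zero_mul]
        · have hsupp : (b + Finsupp.single w 1).support = insert w a.support := by
            ext u
            rw [← hbs]
            simp only [Finsupp.mem_support_iff, Finsupp.coe_add, Pi.add_apply,
              Finsupp.single_apply, Finset.mem_insert]
            split_ifs with h
            · subst h; simp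
            · simp [Ne.symm h]
          have hdeg : (b + Finsupp.single w 1).degree = d := by
            rw [← ha, ← hb, map_add, map_add, Finsupp.degree_single, Finsupp.degree_single]
          have hcard : (b + Finsupp.single w 1).support.card = a.support.card + 1 := by
            rw [hsupp, Finset.card_insert_of_notMem hws]
          have h6 := ih (d - (b + Finsupp.single w 1).support.card) (by omega)
            (b + Finsupp.single w 1) hdeg rfl (fun σ hσ1 hσ2 => hσ σ (by
              rw [hsupp] at hσ1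
              exact (Finset.subset_insert _ _).trans hσ1) hσ2)
          rw [X, monomial_mul, one_mul, h6, mul_zero]

/-- A homogeneous functional of degree `d` that kills the `θ_j` and all squarefree monomials on
`d`-sets is zero. -/
lemma kill_all (d : ℕ) (t : Fin n → K) (ht : Function.Injective t) (ht0 : ∀ v, t v ≠ 0)
    (φ : MvPolynomial (Fin n) K →ₗ[K] K)
    (hφ : ∀ j < d, ∀ g, φ (g * theta t (j + 1)) = 0)
    (hhom : ∀ e, e ≠ d → ∀ f : MvPolynomial (Fin n) K, f.IsHomogeneous e → φ f = 0)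
    (hσ : ∀ σ : Finset (Fin n), σ.card = d → φ (xprod K σ) = 0) (f) : φ f = 0 := by
  have hm : ∀ a : Fin n →₀ ℕ, φ (monomial a 1) = 0 := by
    intro a
    by_cases ha : a.degree = d
    · exact kill_monomial d t ht ht0 φ hφ _ a ha rfl (fun σ _ h => hσ σ h)
    · exact hhom _ ha _ (isHomogeneous_monomial _ rfl)
  rw [f.as_sum, map_sum]
  refine Finset.sum_eq_zero fun a _ => ?_
  rw [← mul_one (coeff a f), ← smul_eq_mul, ← smul_monomial, map_smul, hm, smul_zero]

/-- The ideal of all `f` with `φ (h f) = 0` for every `h`. -/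
def annIdeal (φ : MvPolynomial (Fin n) K →ₗ[K] K) : Ideal (MvPolynomial (Fin n) K) where
  carrier := {f | ∀ h, φ (h * f) = 0}
  add_mem' := fun {a b} ha hb h => by rw [mul_add, map_add, ha, hb, add_zero]
  zero_mem' := fun h => by rw [mul_zero, map_zero]
  smul_mem' := fun c f hf h => by rw [smul_eq_mul, ← mul_assoc]; exact hf _

/-- The cycle attached to a functional. -/
noncomputable def toCycle (d : ℕ) (t : Fin n → K) (φ : MvPolynomial (Fin n) K →ₗ[K] K)
    (σ : Finset (Fin n)) : K :=
  if σ.card = d then vd t σ * φ (xprod K σ) else 0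

lemma toCycle_isCycle (d : ℕ) (t : Fin n → K)
    (φ : MvPolynomial (Fin n) K →ₗ[K] K)
    (hφ : ∀ j < d, ∀ g, φ (g * theta t (j + 1)) = 0) : IsCycle d (toCycle d t φ) := by
  classical
  refine ⟨fun s hs => if_neg hs, fun τ hτ => ?_⟩
  let q : Polynomial K := Polynomial.X * ∏ u ∈ τ, (Polynomial.X - Polynomial.C (t u))
  have hqd : q.natDegree ≤ d := by
    refine (Polynomial.natDegree_mul_le).trans ?_
    rw [Polynomial.natDegree_X, Polynomial.natDegree_prod_of_monic _ _
      (fun u _ => Polynomial.monic_X_sub_C _)]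
    simp only [Polynomial.natDegree_X_sub_C, Finset.sum_const, smul_eq_mul, mul_one]
    omega
  have hq0 : q.coeff 0 = 0 := by simp [q]
  have hqe : ∀ w, q.eval (t w) = t w * ∏ u ∈ τ, (t w - t u) := by
    intro w; simp [q, Polynomial.eval_prod]
  have hrel := poly_relation d t q hqd hq0 φ hφ (xprod K τ)
  rw [← Finset.sum_add_sum_compl τ, Finset.sum_eq_zero (s := τ), zero_add] at hrel
  · calc ∑ v ∈ τᶜ, (-1 : K) ^ (τ.filter (· < v)).card * toCycle d t φ (insert v τ)
        = ∑ v ∈ τᶜ, ((-1) ^ τ.card * vd t τ) * (q.eval (t v) * φ (xprod K τ * X v)) := by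
          refine Finset.sum_congr rfl fun v hv => ?_
          have hv' : v ∉ τ := Finset.mem_compl.1 hv
          have h1 : xprod K (insert v τ) = xprod K τ * X v := by
            rw [xprod, Finset.prod_insert hv', mul_comm, xprod]
          rw [toCycle, if_pos (by rw [Finset.card_insert_of_notMem hv', hτ]), h1, ← mul_assoc,
            vd_insert t τ v hv', hqe]
          ring
      _ = 0 := by rw [← Finset.mul_sum, hrel, mul_zero]
  · intro v hv
    rw [hqe, Finset.prod_eq_zero hv (sub_self _), mul_zero, zero_mul]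

lemma image_card {d : ℕ} (e : Fin d → Fin n) (he : StrictMono e) :
    (Finset.univ.image e).card = d := by
  rw [Finset.card_image_of_injective _ he.injective, Finset.card_univ, Fintype.card_fin]

lemma toCycle_isEval (d : ℕ) (t : Fin n → K) (ht : Function.Injective t) (ht0 : ∀ v, t v ≠ 0)
    (φ : MvPolynomial (Fin n) K →ₗ[K] K)
    (hφ : ∀ j < d, ∀ g, φ (g * theta t (j + 1)) = 0)
    (hhom : ∀ e, e ≠ d → ∀ f : MvPolynomial (Fin n) K, f.IsHomogeneous e → φ f = 0) :
    IsEval d t (toCycle d t φ) φ := by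
  classical
  refine ⟨hhom, fun f hf => ?_, fun e he => ?_⟩
  · have hle : momentIdeal d (supp (toCycle d t φ)) t ≤ annIdeal φ := by
      refine sup_le (Ideal.span_le.2 ?_) (Ideal.span_le.2 ?_)
      · rintro _ ⟨s, hs, rfl⟩ h
        rw [h.as_sum, Finset.sum_mul, map_sum]
        refine Finset.sum_eq_zero fun a _ => ?_
        have h1 : (∏ v ∈ s, X v : MvPolynomial (Fin n) K) =
            monomial (∑ v ∈ s, Finsupp.single v 1) 1 := by
          rw [monomial_sum_one]; rfl
        rw [h1, monomial_mul, mul_one, ← mul_one (coeff a h), ← smul_eq_mul, ← smul_monomial,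
          map_smul]
        have h2 : φ (monomial (a + ∑ v ∈ s, Finsupp.single v 1) 1) = 0 := by
          by_cases hd : (a + ∑ v ∈ s, Finsupp.single v 1).degree = d
          · refine kill_monomial d t ht ht0 φ hφ _ _ hd rfl fun σ hσ hσd => ?_
            by_contra hne
            refine hs ⟨σ, ?_, ?_⟩
            · refine Finset.Subset.trans ?_ hσ
              intro v hv
              rw [Finsupp.mem_support_iff, Finsupp.coe_add, Pi.add_apply, Finsupp.finsetSum_apply]
              have : 1 ≤ ∑ u ∈ s, (Finsupp.single u 1 : Fin n →₀ ℕ) v := by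
                refine le_trans ?_ (Finset.single_le_sum (fun _ _ => Nat.zero_le _) hv)
                simp
              omega
            · rw [toCycle, if_pos hσd]
              exact mul_ne_zero (vd_ne_zero t ht ht0 σ) hne
          · exact hhom _ hd _ (isHomogeneous_monomial _ rfl)
        rw [h2, smul_zero]
      · rintro _ ⟨j, rfl⟩ h
        exact hφ j.val j.2 h
    have := hle hf 1
    rwa [one_mul] at this
  · rw [det_eq_vd d t e he, toCycle, if_pos (image_card e he), xprod,
      Finset.prod_image he.injective.injOn]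

lemma eval_theta {d : ℕ} {t : Fin n → K} {μ : Finset (Fin n) → K}
    {φ : MvPolynomial (Fin n) K →ₗ[K] K} (h : IsEval d t μ φ) :
    ∀ j < d, ∀ g, φ (g * theta t (j + 1)) = 0 := fun j hj g =>
  h.ideal _ (Ideal.mul_mem_left _ _ (Ideal.mem_sup_right (Ideal.subset_span ⟨⟨j, hj⟩, rfl⟩)))

lemma exists_strictMono (d : ℕ) (σ : Finset (Fin n)) (h : σ.card = d) :
    ∃ e : Fin d → Fin n, StrictMono e ∧ Finset.univ.image e = σ := by
  refine ⟨σ.orderEmbOfFin h, (σ.orderEmbOfFin h).strictMono, ?_⟩
  ext x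
  simp only [Finset.mem_image, Finset.mem_univ, true_and]
  rw [← Set.mem_range, Finset.range_orderEmbOfFin, Finset.mem_coe]

lemma eval_facet {d : ℕ} {t : Fin n → K} {μ : Finset (Fin n) → K}
    {φ : MvPolynomial (Fin n) K →ₗ[K] K} (h : IsEval d t μ φ) (σ : Finset (Fin n))
    (hσ : σ.card = d) : vd t σ * φ (xprod K σ) = μ σ := by
  obtain ⟨e, he, rfl⟩ := exists_strictMono d σ hσ
  have := h.facet e he
  rw [det_eq_vd d t e he] at this
  rw [← this, xprod, Finset.prod_image he.injective.injOn]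

/-- The evaluation at a cycle is unique. -/
lemma eval_unique {d : ℕ} {t : Fin n → K} (ht : Function.Injective t) (ht0 : ∀ v, t v ≠ 0)
    {μ : Finset (Fin n) → K} {φ φ' : MvPolynomial (Fin n) K →ₗ[K] K} (h : IsEval d t μ φ)
    (h' : IsEval d t μ φ') : φ = φ' := by
  refine LinearMap.ext fun f => ?_
  have := kill_all d t ht ht0 (φ - φ') (fun j hj _ => by
    rw [LinearMap.sub_apply, eval_theta h j hj, eval_theta h' j hj, sub_self])
    (fun e he f hf => by
      rw [LinearMap.sub_apply, h.homog e he f hf, h'.homog e he f hf, sub_self])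
    (fun σ hσ => by
      rw [LinearMap.sub_apply, sub_eq_zero]
      have h1 := eval_facet h σ hσ
      have h2 := eval_facet h' σ hσ
      exact mul_left_cancel₀ (vd_ne_zero t ht ht0 σ) (h1.trans h2.symm)) f
  rwa [LinearMap.sub_apply, sub_eq_zero] at this

end reduction

section build

variable {K : Type} [Field K]

/-- A graded surjection onto the polynomial ring in `N` variables that kills the `θ_j`. -/
lemma build (d N : ℕ) (t : Fin (d + N) → K) :
    ∃ Ψ : MvPolynomial (Fin (d + N)) K →ₐ[K] MvPolynomial (Fin N) K,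
      (∀ e f, f.IsHomogeneous e → (Ψ f).IsHomogeneous e) ∧
      (∀ i, ∃ P : MvPolynomial (Fin (d + N)) K, P.IsHomogeneous 1 ∧ Ψ P = X i) ∧
      ∀ j < d, Ψ (theta t (j + 1)) = 0 := by
  classical
  let Θ : Submodule K (Fin (d + N) → K) :=
    Submodule.span K (Set.range fun j : Fin d => fun v => t v ^ (j.val + 1))
  have hΘ : Module.finrank K Θ ≤ d := by
    have := finrank_range_le_card (R := K) (fun j : Fin d => fun v : Fin (d + N) => t v ^ (j.val + 1))
    rw [Fintype.card_fin] at this
    exact this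
  have hQ : N ≤ Module.finrank K ((Fin (d + N) → K) ⧸ Θ) := by
    have h := Submodule.finrank_quotient_add_finrank Θ
    rw [Module.finrank_fin_fun] at h
    omega
  let eQ := (Module.finBasis K ((Fin (d + N) → K) ⧸ Θ)).equivFun
  let T : (Fin (d + N) → K) →ₗ[K] (Fin N → K) :=
    (LinearMap.funLeft K K (Fin.castLE hQ)) ∘ₗ eQ.toLinearMap ∘ₗ Θ.mkQ
  have hT : Function.Surjective T := by
    exact (LinearMap.funLeft_surjective_of_injective K K _ (Fin.castLE_injective hQ)).comp
      (eQ.surjective.comp (Submodule.mkQ_surjective Θ))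
  have hTΘ : ∀ j < d, T (fun v => t v ^ (j + 1)) = 0 := by
    intro j hj
    have h1 : (fun v => t v ^ (j + 1)) ∈ Θ := Submodule.subset_span ⟨⟨j, hj⟩, rfl⟩
    have h2 : Θ.mkQ (fun v => t v ^ (j + 1)) = 0 := by
      rw [Submodule.mkQ_apply, Submodule.Quotient.mk_eq_zero]; exact h1
    simp only [T, LinearMap.comp_apply, h2, map_zero]
  let w : Fin (d + N) → Fin N → K := fun v => T (Pi.single v 1)
  let Ψ : MvPolynomial (Fin (d + N)) K →ₐ[K] MvPolynomial (Fin N) K :=
    aeval (fun v => ∑ i, C (w v i) * X i)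
  have hlin : ∀ c : Fin (d + N) → K, Ψ (∑ v, C (c v) * X v) = ∑ i, C (T c i) * X i := by
    intro c
    have h1 : ∀ i, T c i = ∑ v, c v * w v i := by
      intro i
      have : c = ∑ v, c v • (Pi.single v 1 : Fin (d + N) → K) := by
        ext u
        simp [Finset.sum_apply, Pi.single_apply]
      conv_lhs => rw [this]
      rw [map_sum, Finset.sum_apply]
      refine Finset.sum_congr rfl fun v _ => ?_
      rw [map_smul, Pi.smul_apply, smul_eq_mul]
    rw [map_sum]
    simp_rw [h1, map_sum, Finset.sum_mul]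
    rw [Finset.sum_comm]
    refine Finset.sum_congr rfl fun v _ => ?_
    rw [map_mul, aeval_X, ← algebraMap_eq, AlgHom.commutes, algebraMap_eq, Finset.mul_sum]
    refine Finset.sum_congr rfl fun i _ => ?_
    rw [C_mul, mul_assoc]
  refine ⟨Ψ, fun e f hf => ?_, fun i => ?_, fun j hj => ?_⟩
  · have := hf.aeval (fun v => ∑ i, C (w v i) * X i) (n := 1) (fun v => by
      refine IsHomogeneous.sum _ _ _ fun i _ => ?_
      simpa using (isHomogeneous_C (Fin N) (w v i)).mul (isHomogeneous_X K i))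
    rwa [one_mul] at this
  · obtain ⟨c, hc⟩ := hT (Pi.single i 1)
    refine ⟨∑ v, C (c v) * X v, ?_, ?_⟩
    · refine IsHomogeneous.sum _ _ _ fun v _ => ?_
      simpa using (isHomogeneous_C (Fin (d + N)) (c v)).mul (isHomogeneous_X K v)
    · rw [hlin, hc, Finset.sum_eq_single i]
      · simp
      · intro j _ hj; simp [hj]
      · intro h; exact absurd (Finset.mem_univ i) h
  · rw [theta, hlin, hTΘ j hj]
    simp

lemma cycle_zero {n : ℕ} (d : ℕ) (hd : 1 ≤ d) (μ : Finset (Fin n) → K) (hc : IsCycle d μ)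
    (v0 : Fin n) (h : ∀ σ : Finset (Fin n), v0 ∉ σ → σ.card = d → μ σ = 0) : μ = 0 := by
  funext σ
  by_cases hσ : σ.card = d
  · by_cases hv : v0 ∈ σ
    · have hcard : (σ.erase v0).card + 1 = d := by
        rw [Finset.card_erase_of_mem hv]; omega
      have h1 := hc.2 (σ.erase v0) hcard
      rw [Finset.sum_eq_single v0] at h1
      · rw [Finset.insert_erase hv] at h1
        exact (mul_eq_zero.1 h1).resolve_left (pow_ne_zero _ (neg_ne_zero.2 one_ne_zero))
      · intro v hv1 hv2
        rw [h (insert v (σ.erase v0)), mul_zero]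
        · rw [Finset.mem_insert]
          rintro (h' | h')
          · exact hv2 h'.symm
          · exact absurd h' (Finset.notMem_erase _ _)
        · rw [Finset.card_insert_of_notMem (Finset.mem_compl.1 hv1)]
          exact hcard
      · intro h'
        exact absurd (Finset.mem_compl.2 (Finset.notMem_erase v0 σ)) h'
    · exact h σ hv hσ
  · exact hc.1 σ hσ

/-- Every cycle has an evaluation. -/
lemma eval_exists (d N : ℕ) (hd : 1 ≤ d) (t : Fin (d + N) → K) (ht : Function.Injective t)
    (ht0 : ∀ v, t v ≠ 0) (μ : Finset (Fin (d + N)) → K) (hμ : IsCycle d μ) :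
    ∃ φ, IsEval d t μ φ := by
  classical
  obtain ⟨Ψ, hΨ, hsurj, hθ⟩ := build d N t
  choose P hP1 hP using hsurj
  let v0 : Fin (d + N) := ⟨0, by omega⟩
  let S : Finset (Fin N →₀ ℕ) := Finset.finsuppAntidiag Finset.univ d
  let T : Finset (Finset (Fin (d + N))) := Finset.powersetCard d (Finset.univ.erase v0)
  have hST : S.card = T.card := by
    rw [Finset.card_finsuppAntidiag_nat_eq_choose, Finset.card_powersetCard,
      Finset.card_erase_of_mem (Finset.mem_univ _), Finset.card_univ, Finset.card_univ,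
      Fintype.card_fin, Fintype.card_fin, add_comm N d]
  have hSdeg : ∀ a ∈ S, a.degree = d := by
    intro a ha
    rw [Finset.mem_finsuppAntidiag] at ha
    rw [← ha.1, Finsupp.degree_eq_sum]
  let Φ : (S → K) →ₗ[K] (MvPolynomial (Fin (d + N)) K →ₗ[K] K) :=
    ∑ a : S, (LinearMap.proj a : (S → K) →ₗ[K] K).smulRight (lcoeff K a.1 ∘ₗ Ψ.toLinearMap)
  have hΦ : ∀ c f, Φ c f = ∑ a : S, c a * coeff a.1 (Ψ f) := by
    intro c f
    simp [Φ, LinearMap.sum_apply, lcoeff]
  have hθΦ : ∀ c, ∀ j < d, ∀ g, Φ c (g * theta t (j + 1)) = 0 := by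
    intro c j hj g
    rw [hΦ]
    simp only [map_mul, hθ j hj, mul_zero, coeff_zero, Finset.sum_const_zero]
  have hhom : ∀ c, ∀ e, e ≠ d → ∀ f : MvPolynomial (Fin (d + N)) K, f.IsHomogeneous e →
      Φ c f = 0 := by
    intro c e he f hf
    rw [hΦ]
    refine Finset.sum_eq_zero fun a _ => ?_
    rw [(hΨ e f hf).coeff_eq_zero (by rw [hSdeg a.1 a.2]; exact he.symm), mul_zero]
  let Λ : (S → K) →ₗ[K] (T → K) :=
    LinearMap.pi fun σ => (vd t σ.1) • ((LinearMap.applyₗ (xprod K σ.1)) ∘ₗ Φ)
  have hΛ : ∀ c σ, Λ c σ = vd t σ.1 * Φ c (xprod K σ.1) := fun c σ => rfl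
  have hker : ∀ c, toCycle d t (Φ c) = 0 → c = 0 := by
    intro c hc
    have h0 : ∀ f, Φ c f = 0 := kill_all d t ht ht0 (Φ c) (hθΦ c) (hhom c) (fun σ hσ => by
      have := congrFun hc σ
      rw [toCycle, if_pos hσ] at this
      exact (mul_eq_zero.1 this).resolve_left (vd_ne_zero t ht ht0 σ))
    have hid : Ψ.comp (aeval P) = AlgHom.id K (MvPolynomial (Fin N) K) := by
      ext i : 1
      rw [AlgHom.comp_apply, aeval_X, hP, AlgHom.id_apply]
    funext a
    have h1 := h0 (aeval P (monomial a.1 (1 : K)))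
    have h2 : Ψ (aeval P (monomial a.1 (1 : K))) = monomial a.1 1 :=
      DFunLike.congr_fun hid (monomial a.1 1)
    rw [hΦ, h2, Finset.sum_eq_single a] at h1
    · simpa using h1
    · intro b _ hb
      rw [coeff_monomial, if_neg (fun h => hb (Subtype.ext h).symm), mul_zero]
    · intro h; exact absurd (Finset.mem_univ a) h
  have hinj : Function.Injective Λ := by
    rw [injective_iff_map_eq_zero]
    intro c hc
    refine hker c (cycle_zero d hd _ (toCycle_isCycle d t _ (hθΦ c)) v0 fun σ hσ hσd => ?_)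
    have hσT : σ ∈ T := by
      rw [Finset.mem_powersetCard]
      exact ⟨fun v hv => Finset.mem_erase.2 ⟨by rintro rfl; exact hσ hv, Finset.mem_univ _⟩, hσd⟩
    have := congrFun hc ⟨σ, hσT⟩
    rw [hΛ] at this
    rw [toCycle, if_pos hσd]
    exact this
  have hsurjΛ : Function.Surjective Λ := by
    refine (LinearMap.injective_iff_surjective_of_finrank_eq_finrank ?_).1 hinj
    rw [Module.finrank_fintype_fun_eq_card, Module.finrank_fintype_fun_eq_card,
      Fintype.card_coe, Fintype.card_coe, hST]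
  obtain ⟨c, hc⟩ := hsurjΛ (fun σ => μ σ.1)
  have heq : toCycle d t (Φ c) = μ := by
    rw [← sub_eq_zero]
    have hcyc := toCycle_isCycle d t _ (hθΦ c)
    refine cycle_zero d hd _ ⟨fun s hs => ?_, fun τ hτ => ?_⟩ v0 fun σ hσ hσd => ?_
    · rw [Pi.sub_apply, hcyc.1 s hs, hμ.1 s hs, sub_zero]
    · have h1 := hcyc.2 τ hτ
      have h2 := hμ.2 τ hτ
      simp only [Pi.sub_apply, mul_sub, Finset.sum_sub_distrib, h1, h2, sub_zero]
    · have hσT : σ ∈ T := by
        rw [Finset.mem_powersetCard]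
        exact ⟨fun v hv => Finset.mem_erase.2 ⟨by rintro rfl; exact hσ hv, Finset.mem_univ _⟩,
          hσd⟩
      have := congrFun hc ⟨σ, hσT⟩
      rw [hΛ] at this
      rw [Pi.sub_apply, toCycle, if_pos hσd, this, sub_self]
  rw [← heq]
  exact ⟨Φ c, toCycle_isEval d t ht ht0 _ (hθΦ c) (hhom c)⟩

/-- Every cycle has exactly one evaluation. -/
lemma eval_existsUnique {n : ℕ} (d : ℕ) (hd : 1 ≤ d) (t : Fin n → K) (ht : Function.Injective t)
    (ht0 : ∀ v, t v ≠ 0) (μ : Finset (Fin n) → K) (hμ : IsCycle d μ) :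
    ∃! φ, IsEval d t μ φ := by
  have hex : ∃ φ, IsEval d t μ φ := by
    by_cases hn : d ≤ n
    · obtain ⟨N, rfl⟩ := Nat.exists_eq_add_of_le hn
      exact eval_exists d N hd t ht ht0 μ hμ
    · refine ⟨0, fun _ _ _ _ => rfl, fun _ _ => rfl, fun e he => ?_⟩
      have := Fintype.card_le_of_injective e he.injective
      rw [Fintype.card_fin, Fintype.card_fin] at this
      omega
  obtain ⟨φ, hφ⟩ := hex
  exact ⟨φ, hφ, fun φ' h => eval_unique ht ht0 h hφ⟩

/-- From a functional `ψ` of degree `d` in `N` variables to a cycle on `d + N` vertices. -/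
lemma transfer (d N : ℕ) (t : Fin (d + N) → K) (ht : Function.Injective t) (ht0 : ∀ v, t v ≠ 0)
    (Ψ : MvPolynomial (Fin (d + N)) K →ₐ[K] MvPolynomial (Fin N) K)
    (hΨ : ∀ e f, f.IsHomogeneous e → (Ψ f).IsHomogeneous e)
    (hΨθ : ∀ j < d, Ψ (theta t (j + 1)) = 0)
    (ψ : MvPolynomial (Fin N) K →ₗ[K] K)
    (hψ : ∀ e, e ≠ d → ∀ f : MvPolynomial (Fin N) K, f.IsHomogeneous e → ψ f = 0)
    (hne : ∃ f, ψ (Ψ f) ≠ 0)
    (hL : ¬ Lefschetz d (ψ ∘ₗ Ψ.toLinearMap)) :
    ∃ μ : Finset (Fin (d + N)) → K, μ ≠ 0 ∧ IsCycle d μ ∧ (∃! φ, IsEval d t μ φ) ∧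
      ∀ φ, IsEval d t μ φ → ¬ Lefschetz d φ := by
  set φ : MvPolynomial (Fin (d + N)) K →ₗ[K] K := ψ ∘ₗ Ψ.toLinearMap with hφdef
  have hφ : ∀ j < d, ∀ g, φ (g * theta t (j + 1)) = 0 := by
    intro j hj g
    simp only [hφdef, LinearMap.comp_apply, AlgHom.toLinearMap_apply, map_mul, hΨθ j hj,
      mul_zero, map_zero]
  have hhom : ∀ e, e ≠ d → ∀ f : MvPolynomial (Fin (d + N)) K, f.IsHomogeneous e → φ f = 0 := by
    intro e he f hf
    exact hψ e he _ (hΨ e f hf)
  have hev := toCycle_isEval d t ht ht0 φ hφ hhom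
  have huniq : ∀ φ', IsEval d t (toCycle d t φ) φ' → φ' = φ := fun φ' h =>
    eval_unique ht ht0 h hev
  refine ⟨toCycle d t φ, ?_, toCycle_isCycle d t φ hφ, ⟨φ, hev, huniq⟩, ?_⟩
  · intro h0
    obtain ⟨f, hf⟩ := hne
    refine hf (kill_all d t ht ht0 φ hφ hhom (fun σ hσ => ?_) f)
    have h1 := congrFun h0 σ
    rw [toCycle, if_pos hσ] at h1
    exact (mul_eq_zero.1 h1).resolve_left (vd_ne_zero t ht ht0 σ)
  · intro φ' h
    rw [huniq φ' h]
    exact hL

/-- A homogeneous polynomial of degree one is a combination of the variables. -/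
lemma linear_induction {N : ℕ} (p : MvPolynomial (Fin N) K → Prop)
    (hX : ∀ i, p (X i)) (h0 : p 0) (hadd : ∀ f g, p f → p g → p (f + g))
    (hsmul : ∀ (c : K) f, p f → p (c • f)) (f : MvPolynomial (Fin N) K)
    (hf : f.IsHomogeneous 1) : p f := by
  have h' : f ∈ homogeneousSubmodule (Fin N) K 1 := hf
  rw [homogeneousSubmodule_one_eq_span_X] at h'
  clear hf
  induction h' using Submodule.span_induction with
  | mem x hx => obtain ⟨i, rfl⟩ := hx; exact hX i
  | zero => exact h0
  | add x y _ _ hx hy => exact hadd x y hx hy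
  | smul r x _ hx => exact hsmul r x hx

/-- The exponent of `X_i X_3^a X_4^b`. -/
noncomputable def mon (i : Fin 5) (a b : ℕ) : Fin 5 →₀ ℕ :=
  Finsupp.single i 1 + (Finsupp.single 3 a + Finsupp.single 4 b)

lemma mon_eq (i : Fin 5) (a b : ℕ) :
    (X i * (X 3 ^ a * X 4 ^ b) : MvPolynomial (Fin 5) K) = monomial (mon i a b) 1 := by
  rw [mon, X_pow_eq_monomial, X_pow_eq_monomial, X, monomial_mul, monomial_mul, one_mul, one_mul]

lemma mon_degree (i : Fin 5) (a b : ℕ) : (mon i a b).degree = 1 + (a + b) := by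
  rw [mon, map_add, map_add, Finsupp.degree_single, Finsupp.degree_single, Finsupp.degree_single]

/-- The Perazzo functional. -/
noncomputable def perazzo (K : Type) [Field K] (d : ℕ) : MvPolynomial (Fin 5) K →ₗ[K] K :=
  lcoeff K (mon 0 (d - 1) 0) + (lcoeff K (mon 1 (d - 2) 1) + lcoeff K (mon 2 0 (d - 1)))

lemma perazzo_apply (d : ℕ) (f : MvPolynomial (Fin 5) K) :
    perazzo K d f = coeff (mon 0 (d - 1) 0) f + (coeff (mon 1 (d - 2) 1) f +
      coeff (mon 2 0 (d - 1)) f) := rfl

lemma perazzo_hom (d : ℕ) (hd : 3 ≤ d) (e : ℕ) (he : e ≠ d) (f : MvPolynomial (Fin 5) K)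
    (hf : f.IsHomogeneous e) : perazzo K d f = 0 := by
  rw [perazzo_apply, hf.coeff_eq_zero (by rw [mon_degree]; omega),
    hf.coeff_eq_zero (by rw [mon_degree]; omega), hf.coeff_eq_zero (by rw [mon_degree]; omega),
    add_zero, add_zero]

lemma coeff_isotropic (m : Fin 5 →₀ ℕ) (hm : m 0 + m 1 + m 2 ≤ 1) (i j : Fin 5) (hi : i.val < 3)
    (hj : j.val < 3) (G : MvPolynomial (Fin 5) K) : coeff m (X i * (X j * G)) = 0 := by
  classical
  have hsum : ∀ m : Fin 5 →₀ ℕ, ∀ i : Fin 5, i.val < 3 → m i ≤ m 0 + m 1 + m 2 := by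
    intro m i hi
    fin_cases i
    · change m 0 ≤ _; omega
    · change m 1 ≤ _; omega
    · change m 2 ≤ _; omega
    · simp at hi
    · simp at hi
  rw [coeff_X_mul']
  split_ifs with h1
  · rw [coeff_X_mul']
    split_ifs with h2
    · exfalso
      rw [Finsupp.mem_support_iff] at h1 h2
      have h3 : (m - Finsupp.single i 1 : Fin 5 →₀ ℕ) 0 + (m - Finsupp.single i 1 : Fin 5 →₀ ℕ) 1 +
          (m - Finsupp.single i 1 : Fin 5 →₀ ℕ) 2 + 1 = m 0 + m 1 + m 2 := by
        simp only [Finsupp.coe_tsub, Pi.sub_apply, Finsupp.single_apply]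
        fin_cases i
        · simp at h1 ⊢; omega
        · simp at h1 ⊢; omega
        · simp at h1 ⊢; omega
        · simp at hi
        · simp at hi
      have h4 := hsum (m - Finsupp.single i 1) j hj
      omega
    · rfl
  · rfl

lemma mon_inj (i j : Fin 5) (hi : i.val < 3) (hj : j.val < 3) (a b a' b' : ℕ)
    (h : mon i a b = mon j a' b') : i = j ∧ a = a' ∧ b = b' := by
  have h3 := DFunLike.congr_fun h 3
  have h4 := DFunLike.congr_fun h 4
  have hij := DFunLike.congr_fun h i
  simp only [mon, Finsupp.coe_add, Pi.add_apply, Finsupp.single_apply] at h3 h4 hij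
  have i3 : i ≠ 3 := by rintro rfl; simp at hi
  have i4 : i ≠ 4 := by rintro rfl; simp at hi
  have j3 : j ≠ 3 := by rintro rfl; simp at hj
  have j4 : j ≠ 4 := by rintro rfl; simp at hj
  have e34 : ¬ (3 : Fin 5) = 4 := by decide
  have e43 : ¬ (4 : Fin 5) = 3 := by decide
  simp only [i3, j3, i4, j4, e34, e43, if_true, if_false, i3.symm, i4.symm] at h3 h4 hij
  refine ⟨?_, by omega, by omega⟩
  by_contra hne
  rw [if_neg (Ne.symm hne)] at hij
  omega

open Classical in
lemma perazzo_mon (d : ℕ) (i : Fin 5) (a b : ℕ) :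
    perazzo K d (X i * (X 3 ^ a * X 4 ^ b)) =
      (if mon i a b = mon 0 (d - 1) 0 then 1 else 0) +
        ((if mon i a b = mon 1 (d - 2) 1 then 1 else 0) +
          (if mon i a b = mon 2 0 (d - 1) then 1 else 0)) := by
  rw [mon_eq, perazzo_apply, coeff_monomial, coeff_monomial, coeff_monomial]

lemma perazzo_table (d : ℕ) (hd : 3 ≤ d) (i : Fin 5) (hi : i.val < 3) :
    perazzo K d (X i * (X 3 ^ (d - 1) * X 4 ^ 0)) = (if i = 0 then 1 else 0) ∧
    perazzo K d (X i * (X 3 ^ (d - 2) * X 4 ^ 1)) = (if i = 1 then 1 else 0) ∧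
    perazzo K d (X i * (X 3 ^ 0 * X 4 ^ (d - 1))) = (if i = 2 then 1 else 0) := by
  classical
  refine ⟨?_, ?_, ?_⟩
  · rw [perazzo_mon]
    have e2 : mon i (d - 1) 0 ≠ mon 1 (d - 2) 1 := fun h => by
      have := mon_inj i 1 hi (by decide) _ _ _ _ h; omega
    have e3 : mon i (d - 1) 0 ≠ mon 2 0 (d - 1) := fun h => by
      have := mon_inj i 2 hi (by decide) _ _ _ _ h; omega
    rw [if_neg e2, if_neg e3, add_zero, add_zero]
    by_cases h : i = 0
    · rw [h]; simp
    · rw [if_neg h, if_neg]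
      exact fun h' => h (mon_inj i 0 hi (by decide) _ _ _ _ h').1
  · rw [perazzo_mon]
    have e2 : mon i (d - 2) 1 ≠ mon 0 (d - 1) 0 := fun h => by
      have := mon_inj i 0 hi (by decide) _ _ _ _ h; omega
    have e3 : mon i (d - 2) 1 ≠ mon 2 0 (d - 1) := fun h => by
      have := mon_inj i 2 hi (by decide) _ _ _ _ h; omega
    rw [if_neg e2, if_neg e3, zero_add, add_zero]
    by_cases h : i = 1
    · rw [h]; simp
    · rw [if_neg h, if_neg]
      exact fun h' => h (mon_inj i 1 hi (by decide) _ _ _ _ h').1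
  · rw [perazzo_mon]
    have e2 : mon i 0 (d - 1) ≠ mon 0 (d - 1) 0 := fun h => by
      have := mon_inj i 0 hi (by decide) _ _ _ _ h; omega
    have e3 : mon i 0 (d - 1) ≠ mon 1 (d - 2) 1 := fun h => by
      have := mon_inj i 1 hi (by decide) _ _ _ _ h; omega
    rw [if_neg e2, if_neg e3, zero_add, zero_add]
    by_cases h : i = 2
    · rw [h]; simp
    · rw [if_neg h, if_neg]
      exact fun h' => h (mon_inj i 2 hi (by decide) _ _ _ _ h').1

lemma perazzo_isotropic (d : ℕ) (i j : Fin 5) (hi : i.val < 3)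
    (hj : j.val < 3) (G : MvPolynomial (Fin 5) K) : perazzo K d (X i * (X j * G)) = 0 := by
  have h : ∀ (k : Fin 5) (a b : ℕ), (k = 0 ∨ k = 1 ∨ k = 2) →
      (mon k a b) 0 + (mon k a b) 1 + (mon k a b) 2 ≤ 1 := by
    rintro k a b (rfl | rfl | rfl) <;> simp [mon]
  rw [perazzo_apply, coeff_isotropic _ (h 0 _ _ (Or.inl rfl)) i j hi hj,
    coeff_isotropic _ (h 1 _ _ (Or.inr (Or.inl rfl))) i j hi hj,
    coeff_isotropic _ (h 2 _ _ (Or.inr (Or.inr rfl))) i j hi hj, add_zero, add_zero]

/-- The part of the theorem for `d ≥ 3`: all choices of parameters fail for some cycle. -/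
theorem fails_high (d : ℕ) (hd : 3 ≤ d) (t : Fin (d + 5) → K) (ht : Function.Injective t)
    (ht0 : ∀ v, t v ≠ 0) :
    ∃ μ : Finset (Fin (d + 5)) → K, μ ≠ 0 ∧ IsCycle d μ ∧ (∃! φ, IsEval d t μ φ) ∧
      ∀ φ, IsEval d t μ φ → ¬ Lefschetz d φ := by
  obtain ⟨Ψ, hΨ, hsurj, hθ⟩ := build d 5 t
  choose P hP1 hP using hsurj
  refine transfer d 5 t ht ht0 Ψ hΨ hθ (perazzo K d) (perazzo_hom d hd) ?_ ?_
  · refine ⟨P 0 * (P 3 ^ (d - 1) * P 4 ^ 0), ?_⟩
    rw [map_mul Ψ, map_mul Ψ, map_pow Ψ, map_pow Ψ, hP, hP, hP,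
      (perazzo_table d hd 0 (by decide)).1]
    simp
  · rintro ⟨l, hl, h⟩
    obtain ⟨h1, -⟩ := h 1 (by omega)
    let φ : MvPolynomial (Fin (d + 5)) K →ₗ[K] K := perazzo K d ∘ₗ Ψ.toLinearMap
    have hφ : ∀ f, φ f = perazzo K d (Ψ f) := fun _ => rfl
    -- the linear map whose kernel is wanted
    let L := Ψ l
    let A : (Fin 3 → K) →ₗ[K] MvPolynomial (Fin 5) K :=
      { toFun := fun α => α 0 • X 0 + (α 1 • X 1 + α 2 • X 2)
        map_add' := fun x y => by simp only [Pi.add_apply, add_smul]; abel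
        map_smul' := fun c x => by
          simp only [Pi.smul_apply, smul_eq_mul, RingHom.id_apply, smul_add, mul_smul] }
    let S : (Fin 3 → K) →ₗ[K] (Fin 2 → K) :=
      LinearMap.pi ![
        (perazzo K d) ∘ₗ (LinearMap.mulRight K (L ^ (d - 2 * 1) * X 3)) ∘ₗ A,
        (perazzo K d) ∘ₗ (LinearMap.mulRight K (L ^ (d - 2 * 1) * X 4)) ∘ₗ A]
    obtain ⟨α, hα, hα0⟩ : ∃ α, S α = 0 ∧ α ≠ 0 := by
      have : S.ker ≠ ⊥ := LinearMap.ker_ne_bot_of_finrank_lt (by simp)
      obtain ⟨α, hα, hα0⟩ := Submodule.exists_mem_ne_zero_of_ne_bot this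
      exact ⟨α, hα, hα0⟩
    have hS3 : perazzo K d (A α * (L ^ (d - 2 * 1) * X 3)) = 0 := congrFun hα 0
    have hS4 : perazzo K d (A α * (L ^ (d - 2 * 1) * X 4)) = 0 := congrFun hα 1
    have hAiso : ∀ (j : Fin 5), j.val < 3 → ∀ G, perazzo K d (A α * (X j * G)) = 0 := by
      intro j hj G
      have : A α * (X j * G) = α 0 • (X 0 * (X j * G)) + (α 1 • (X 1 * (X j * G)) +
          α 2 • (X 2 * (X j * G))) := by
        change (α 0 • X 0 + (α 1 • X 1 + α 2 • X 2)) * (X j * G) = _
        simp only [add_mul, smul_mul_assoc]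
      rw [this, map_add, map_add, map_smul, map_smul, map_smul,
        perazzo_isotropic d 0 j (by decide) hj, perazzo_isotropic d 1 j (by decide) hj,
        perazzo_isotropic d 2 j (by decide) hj]
      simp
    have hApair : ∀ g : MvPolynomial (Fin 5) K, g.IsHomogeneous 1 →
        perazzo K d (A α * (L ^ (d - 2 * 1) * g)) = 0 := by
      intro g hg
      refine linear_induction (fun g => perazzo K d (A α * (L ^ (d - 2 * 1) * g)) = 0)
        ?_ ?_ ?_ ?_ g hg
      · intro i
        by_cases hi : i.val < 3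
        · rw [mul_comm (L ^ (d - 2 * 1)) (X i)]
          exact hAiso i hi _
        · have : i = 3 ∨ i = 4 := by
            fin_cases i <;> simp at hi ⊢
          rcases this with rfl | rfl
          · exact hS3
          · exact hS4
      · simp
      · intro f g hf hg
        simp only [mul_add, map_add, hf, hg, add_zero]
      · intro c f hf
        simp only [mul_smul_comm, map_smul, hf, smul_zero]
    let F : MvPolynomial (Fin (d + 5)) K := α 0 • P 0 + (α 1 • P 1 + α 2 • P 2)
    have hF1 : F.IsHomogeneous 1 := by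
      have hs : ∀ i (c : K), (c • P i).IsHomogeneous 1 := fun i c => by
        rw [smul_eq_C_mul]
        simpa using (isHomogeneous_C (Fin (d + 5)) c).mul (hP1 i)
      exact (hs 0 _).add ((hs 1 _).add (hs 2 _))
    have hF : Ψ F = A α := by
      change Ψ (α 0 • P 0 + (α 1 • P 1 + α 2 • P 2)) = α 0 • X 0 + (α 1 • X 1 + α 2 • X 2)
      rw [map_add, map_add, map_smul, map_smul, map_smul, hP, hP, hP]
    have hnull := h1 F hF1 (by
      intro g hg
      have hg1 : g.IsHomogeneous 1 := by
        have : d - (d - 1) = 1 := by omega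
        rwa [this] at hg
      rw [hφ, map_mul Ψ, map_mul Ψ, map_pow Ψ, hF]
      rw [show L ^ (d - 2 * 1) * A α * Ψ g = A α * (L ^ (d - 2 * 1) * Ψ g) by ring]
      exact hApair _ (hΨ _ _ hg1))
    have hcoef : ∀ a b, a + b = d - 1 →
        α 0 * perazzo K d (X 0 * (X 3 ^ a * X 4 ^ b)) +
          (α 1 * perazzo K d (X 1 * (X 3 ^ a * X 4 ^ b)) +
            α 2 * perazzo K d (X 2 * (X 3 ^ a * X 4 ^ b))) = 0 := by
      intro a b hab
      have hh : (P 3 ^ a * P 4 ^ b).IsHomogeneous (d - 1) := by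
        have := ((hP1 3).pow a).mul ((hP1 4).pow b)
        rwa [one_mul, one_mul, hab] at this
      have := hnull _ hh
      rw [hφ, map_mul Ψ, hF, map_mul Ψ, map_pow Ψ, map_pow Ψ, hP, hP] at this
      rw [← this]
      change _ = perazzo K d ((α 0 • X 0 + (α 1 • X 1 + α 2 • X 2)) * (X 3 ^ a * X 4 ^ b))
      simp only [add_mul, smul_mul_assoc, map_add, map_smul, smul_eq_mul]
    have t0 := perazzo_table (K := K) d hd 0 (by decide)
    have t1 := perazzo_table (K := K) d hd 1 (by decide)
    have t2 := perazzo_table (K := K) d hd 2 (by decide)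
    have c0 := hcoef (d - 1) 0 (by omega)
    have c1 := hcoef (d - 2) 1 (by omega)
    have c2 := hcoef 0 (d - 1) (by omega)
    rw [t0.1, t1.1, t2.1] at c0
    rw [t0.2.1, t1.2.1, t2.2.1] at c1
    rw [t0.2.2, t1.2.2, t2.2.2] at c2
    apply hα0
    funext i
    fin_cases i
    · simpa using c0
    · simpa using c1
    · simpa using c2

lemma hom_zero {N : ℕ} (f : MvPolynomial (Fin N) K) (hf : f.IsHomogeneous 0) :
    ∃ c : K, f = C c :=
  ⟨coeff 0 f, (totalDegree_eq_zero_iff_eq_C).1 (Nat.le_zero.1 hf.totalDegree_le)⟩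

/-- The coefficient of `X_0 X_1`. -/
noncomputable def hyp (K : Type) [Field K] : MvPolynomial (Fin 2) K →ₗ[K] K :=
  lcoeff K (Finsupp.single 0 1 + Finsupp.single 1 1)

lemma hyp_apply (f : MvPolynomial (Fin 2) K) :
    hyp K f = coeff (Finsupp.single 0 1 + Finsupp.single 1 1) f := rfl

lemma hyp_sq (h2 : (2 : K) = 0) (f : MvPolynomial (Fin 2) K) (hf : f.IsHomogeneous 1) :
    hyp K (f ^ 2) = 0 := by
  refine linear_induction (fun f => hyp K (f ^ 2) = 0) ?_ ?_ ?_ ?_ f hf
  · intro i
    rw [hyp_apply, coeff_X_pow, if_neg]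
    intro h
    have h0 := DFunLike.congr_fun h 0
    have h1 := DFunLike.congr_fun h 1
    fin_cases i
    · simp at h0
    · simp at h0
  · simp
  · intro f g hf hg
    have : (f + g) ^ 2 = f ^ 2 + ((2 : K) • (f * g) + g ^ 2) := by
      rw [smul_eq_C_mul, map_ofNat]; ring
    rw [this, h2, zero_smul, zero_add, map_add, hf, hg, add_zero]
  · intro c f hf
    rw [smul_pow, map_smul, hf, smul_zero]

/-- The case `d = 2` in characteristic two. -/
theorem fails_two (h2 : (2 : K) = 0) (t : Fin (2 + 2) → K) (ht : Function.Injective t)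
    (ht0 : ∀ v, t v ≠ 0) :
    ∃ μ : Finset (Fin (2 + 2)) → K, μ ≠ 0 ∧ IsCycle 2 μ ∧ (∃! φ, IsEval 2 t μ φ) ∧
      ∀ φ, IsEval 2 t μ φ → ¬ Lefschetz 2 φ := by
  obtain ⟨Ψ, hΨ, hsurj, hθ⟩ := build 2 2 t
  choose P hP1 hP using hsurj
  have h01 : hyp K (Ψ (P 0 * P 1)) = 1 := by
    rw [map_mul Ψ, hP, hP, hyp_apply, X, X, monomial_mul, coeff_monomial, if_pos rfl, one_mul]
  refine transfer 2 2 t ht ht0 Ψ hΨ hθ (hyp K) ?_ ?_ ?_
  · intro e he f hf
    rw [hyp_apply]
    refine hf.coeff_eq_zero ?_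
    rw [map_add, Finsupp.degree_single, Finsupp.degree_single]
    exact he.symm
  · exact ⟨P 0 * P 1, by rw [h01]; exact one_ne_zero⟩
  · rintro ⟨l, hl, h⟩
    have h1 := (h 0 (by norm_num)).1 1 (isHomogeneous_one _ _) (by
      intro g hg
      obtain ⟨c, rfl⟩ := hom_zero g hg
      rw [mul_one, mul_comm, ← smul_eq_C_mul, map_smul]
      change c • hyp K (Ψ (l ^ 2)) = 0
      rw [map_pow Ψ, hyp_sq h2 _ (hΨ _ _ hl), smul_zero])
    have h3 := h1 (P 0 * P 1) (by simpa using (hP1 0).mul (hP1 1))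
    rw [one_mul] at h3
    exact one_ne_zero (h01.symm.trans h3)

/-- In dimension at most two a linear form with nonzero `d`-th power suffices. -/
lemma lefschetz_of {n : ℕ} (d : ℕ) (hd : 1 ≤ d) (hd2 : d ≤ 2)
    (φ : MvPolynomial (Fin n) K →ₗ[K] K) (l : MvPolynomial (Fin n) K) (hl : l.IsHomogeneous 1)
    (hne : φ (l ^ d) ≠ 0) : Lefschetz d φ := by
  refine ⟨l, hl, fun k hk => ?_⟩
  rcases Nat.eq_zero_or_pos k with rfl | hpos
  · refine ⟨fun f hf hnull => ?_, fun g hg => ?_⟩
    · obtain ⟨c, rfl⟩ := hom_zero f hf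
      have h1 := hnull 1 (by simpa using isHomogeneous_one (Fin n) K)
      rw [mul_one, mul_comm, ← smul_eq_C_mul, map_smul, smul_eq_mul, mul_zero, Nat.sub_zero] at h1
      have hc : c = 0 := (mul_eq_zero.1 h1).resolve_right hne
      intro g _
      rw [hc, C_0, zero_mul, map_zero]
    · refine ⟨C (φ g / φ (l ^ d)), isHomogeneous_C _ _, fun h hh => ?_⟩
      have hh0 : h.IsHomogeneous 0 := by
        have : d - (d - 0) = 0 := by omega
        rwa [this] at hh
      obtain ⟨e, rfl⟩ := hom_zero h hh0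
      rw [mul_comm, ← smul_eq_C_mul, map_smul, map_sub, mul_comm (l ^ _), ← smul_eq_C_mul,
        map_smul, mul_zero, Nat.sub_zero, smul_eq_mul, smul_eq_mul, div_mul_cancel₀ _ hne,
        sub_self, mul_zero]
  · have hk1 : k = 1 := by omega
    have hd' : d = 2 := by omega
    subst hk1 hd'
    refine ⟨fun f hf hnull => ?_, fun g hg => ⟨g, hg, fun h _ => ?_⟩⟩
    · simpa using hnull
    · simp

lemma card_one_two {n : ℕ} {d : ℕ} {μ : Finset (Fin n) → K} (hμ : μ ≠ 0) (hc : IsCycle d μ) :
    ∃ σ : Finset (Fin n), σ.card = d ∧ μ σ ≠ 0 := by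
  by_contra h
  push Not at h
  apply hμ
  funext σ
  by_cases hσ : σ.card = d
  · exact h σ hσ
  · exact hc.1 σ hσ

/-- The positive cases. -/
theorem holds_low {n d : ℕ} (hd : d = 1 ∨ (d = 2 ∧ (2 : K) ≠ 0)) (t : Fin n → K)
    (μ : Finset (Fin n) → K) (hμ : μ ≠ 0) (hc : IsCycle d μ)
    (φ : MvPolynomial (Fin n) K →ₗ[K] K) (hφ : IsEval d t μ φ) : Lefschetz d φ := by
  obtain ⟨σ, hσ, hne⟩ := card_one_two hμ hc
  have h1 : φ (xprod K σ) ≠ 0 := by
    intro h
    have := eval_facet hφ σ hσ
    rw [h, mul_zero] at this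
    exact hne this.symm
  rcases hd with rfl | ⟨rfl, h2⟩
  · obtain ⟨v, rfl⟩ := Finset.card_eq_one.1 hσ
    rw [xprod, Finset.prod_singleton] at h1
    exact lefschetz_of 1 le_rfl (by norm_num) φ (X v) (isHomogeneous_X K v) (by rwa [pow_one])
  · obtain ⟨u, v, huv, rfl⟩ := Finset.card_eq_two.1 hσ
    rw [xprod, Finset.prod_pair huv] at h1
    by_contra hL
    have hsq : ∀ l : MvPolynomial (Fin n) K, l.IsHomogeneous 1 → φ (l ^ 2) = 0 := by
      intro l hl
      by_contra h
      exact hL (lefschetz_of 2 (by norm_num) le_rfl φ l hl h)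
    have e : (2 : K) • (X u * X v : MvPolynomial (Fin n) K) =
        (X u + X v) ^ 2 - X u ^ 2 - X v ^ 2 := by
      rw [smul_eq_C_mul, map_ofNat]; ring
    have e2 := congrArg φ e
    rw [map_smul, map_sub, map_sub, hsq _ ((isHomogeneous_X K u).add (isHomogeneous_X K v)),
      hsq _ (isHomogeneous_X K u), hsq _ (isHomogeneous_X K v), sub_self, sub_self,
      smul_eq_mul] at e2
    exact h1 ((mul_eq_zero.1 e2).resolve_left h2)

lemma exists_params (K : Type) [Field K] [Infinite K] (n : ℕ) :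
    ∃ t : Fin n → K, Function.Injective t ∧ ∀ v, t v ≠ 0 := by
  have h : ({0}ᶜ : Set K).Infinite := (Set.finite_singleton 0).infinite_compl
  refine ⟨fun i => (h.natEmbedding _ i.val).1, fun i j hij => ?_, fun v => ?_⟩
  · exact Fin.ext ((h.natEmbedding _).injective (Subtype.ext hij))
  · exact (h.natEmbedding _ v.val).2

end build

/-- **Moment-curve reductions of cycles.**  Let `K` be an infinite field and `d ≥ 1`.
Every `(d-1)`-cycle `μ` has exactly one evaluation functional.  The moment-curve reduction `B(μ)` has the Lefschetz property for all vertex numbers `n`, all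
pairwise distinct nonzero parameters and all `(d-1)`-cycles `μ ≠ 0` if and only if `d = 1`, or
`d = 2` and the characteristic of `K` is not two.  Moreover, for `d ≥ 3`, for *every* choice of
`d + 5` pairwise distinct nonzero parameters there is a `(d-1)`-cycle `μ` for which it fails. -/
theorem result (K : Type) [Field K] [Infinite K] (d : ℕ) (hd : 1 ≤ d) :
    (∀ (n : ℕ) (t : Fin n → K), Function.Injective t → (∀ v, t v ≠ 0) →
      ∀ μ : Finset (Fin n) → K, IsCycle d μ → ∃! φ, IsEval d t μ φ) ∧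
    ((∀ (n : ℕ) (t : Fin n → K), Function.Injective t → (∀ v, t v ≠ 0) →
      ∀ μ : Finset (Fin n) → K, μ ≠ 0 → IsCycle d μ →
        ∀ φ : MvPolynomial (Fin n) K →ₗ[K] K, IsEval d t μ φ → Lefschetz d φ) ↔
      (d = 1 ∨ (d = 2 ∧ (2 : K) ≠ 0))) ∧
    (3 ≤ d → ∀ t : Fin (d + 5) → K, Function.Injective t → (∀ v, t v ≠ 0) →
      ∃ μ : Finset (Fin (d + 5)) → K, μ ≠ 0 ∧ IsCycle d μ ∧
        ∀ φ, IsEval d t μ φ → ¬ Lefschetz d φ) := by
  refine ⟨fun n t ht ht0 μ hμ => eval_existsUnique d hd t ht ht0 μ hμ, ⟨fun h => ?_, fun h n t _ _ μ hμ hc φ hφ => holds_low h t μ hμ hc φ hφ⟩,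
    fun h3 t ht ht0 => ?_⟩
  rotate_left
  · obtain ⟨μ, hμ, hc, -, hL⟩ := fails_high d h3 t ht ht0
    exact ⟨μ, hμ, hc, hL⟩
  by_contra hcon
  by_cases h3 : 3 ≤ d
  · obtain ⟨t, ht, ht0⟩ := exists_params K (d + 5)
    obtain ⟨μ, hμ, hc, ⟨φ, hφ, -⟩, hL⟩ := fails_high d h3 t ht ht0
    exact hL φ hφ (h _ t ht ht0 μ hμ hc φ hφ)
  · have hd2 : d = 2 := by
      by_contra h'
      exact hcon (Or.inl (by omega))
    subst hd2
    have h2 : (2 : K) = 0 := by
      by_contra h'
      exact hcon (Or.inr ⟨rfl, h'⟩)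
    obtain ⟨t, ht, ht0⟩ := exists_params K (2 + 2)
    obtain ⟨μ, hμ, hc, ⟨φ, hφ, -⟩, hL⟩ := fails_two h2 t ht ht0
    exact hL φ hφ (h _ t ht ht0 μ hμ hc φ hφ)

end Pool.Agent.Results.MP_487945_co.Cycles
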