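import Mathlib

/-!
# Moment-curve reductions of spheres fail the Lefschetz property in every positive characteristic

The join of the boundary complexes of two simplices with `m` vertices each is a PL-sphere of
dimension `d - 1`, `d = 2 * (m - 1)`, with `d + 2` vertices.  By Gale duality its moment-curve
reduction is `K[A, B] / (∏ (A + t_i B), ∏ (A + s_i B))`, where the `t_i`, `s_i` are the parameters
of the two groups of vertices.  Taking for the two groups two orbits of a suitable finite group of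
Moebius maps, every linear form has `d`-th power zero:
* `p = 2`: orbits of `z ↦ 1 / (z + 1)` (`m = 3`);
* `p = 3`: orbits of the Klein group `z ↦ ± z, ± 1 / z` (`m = 4`);
* `p ≥ 5`: orbits of multiplication by the nonzero elements of the prime field (`m = p - 1`).
-/

namespace Pool.Agent.Results.MP_487945_co.EveryPrime

open MvPolynomial

/-- The ideal generated by the monomials of the non-faces of a complex `D`. -/
noncomputable def faceIdeal (K : Type) [Field K] {V : Type} (D : Set (Finset V)) :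
    Ideal (MvPolynomial V K) :=
  Ideal.span {m | ∃ s : Finset V, s ∉ D ∧ m = ∏ v ∈ s, X v}

/-- The face ideal together with `θ_j = ∑ t_v ^ j x_v`, `j = 1, …, d`. -/
noncomputable def momentIdeal {K : Type} [Field K] {V : Type} [Fintype V] (d : ℕ)
    (D : Set (Finset V)) (t : V → K) : Ideal (MvPolynomial V K) :=
  faceIdeal K D ⊔ Ideal.span (Set.range fun j : Fin d => ∑ v, C (t v ^ (j.val + 1)) * X v)

/-- The hard Lefschetz property of the graded algebra `K[x] / J` with socle degree `d`. -/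
def Lefschetz {K : Type} [Field K] {V : Type} (d : ℕ) (J : Ideal (MvPolynomial V K)) : Prop :=
  ∃ l : MvPolynomial V K, l.IsHomogeneous 1 ∧ ∀ k, 2 * k ≤ d →
    (∀ f : MvPolynomial V K, f.IsHomogeneous k → l ^ (d - 2 * k) * f ∈ J → f ∈ J) ∧
    ∀ g : MvPolynomial V K, g.IsHomogeneous (d - k) →
      ∃ f : MvPolynomial V K, f.IsHomogeneous k ∧ g - l ^ (d - 2 * k) * f ∈ J

/-- The join of the boundary complexes of two simplices with `m` vertices each: a set of
vertices is a face when it contains neither of the two vertex sets. -/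
def joinBoundary (m : ℕ) : Set (Finset (Fin m ⊕ Fin m)) :=
  {s | ¬ (∀ i : Fin m, Sum.inl i ∈ s) ∧ ¬ (∀ i : Fin m, Sum.inr i ∈ s)}

lemma interp {R : Type} [CommRing R] (i Ta Tb Tv Za Zb Zv : R) (h1 : i * (Ta - Tb) = 1)
    (h : (Ta - Tb) * Zv = (Tv - Tb) * Za - (Tv - Ta) * Zb) :
    Zv = i * (Ta * Zb - Tb * Za) + Tv * (i * (Za - Zb)) := by
  linear_combination (-Zv) * h1 + i * h

section relations

variable {K : Type} [Field K] {V : Type} [Fintype V]

/-- Any polynomial of degree at most `d` with zero constant term gives a linear relation. -/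
lemma poly_relation (d : ℕ) (D : Set (Finset V)) (t : V → K) (q : Polynomial K)
    (hq : q.natDegree ≤ d) (hq0 : q.coeff 0 = 0) :
    ∑ v, C (q.eval (t v)) * X v ∈ momentIdeal d D t := by
  have h : ∑ v, C (q.eval (t v)) * (X v : MvPolynomial V K) =
      ∑ j : Fin d, C (q.coeff (j.val + 1)) * ∑ v, C (t v ^ (j.val + 1)) * X v := by
    simp_rw [Finset.mul_sum]
    rw [Finset.sum_comm]
    refine Finset.sum_congr rfl fun v _ => ?_
    rw [Polynomial.eval_eq_sum_range' (n := d + 1) (by omega), Finset.sum_range_succ']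
    rw [hq0, zero_mul, add_zero, map_sum, Finset.sum_mul, Finset.sum_range]
    refine Finset.sum_congr rfl fun j _ => ?_
    rw [map_mul, mul_assoc]
  rw [h]
  refine Ideal.sum_mem _ fun j _ => Ideal.mul_mem_left _ _ ?_
  exact Ideal.mem_sup_right (Ideal.subset_span ⟨j, rfl⟩)

variable [DecidableEq V]

/-- The weight of a vertex. -/
def wt (t : V → K) (v : V) : K := t v * ∏ u ∈ Finset.univ.erase v, (t v - t u)

lemma three_term (n : ℕ) (hn : Fintype.card V = n + 2) (D : Set (Finset V)) (t : V → K)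
    (a b v : V) (hab : a ≠ b) (hva : v ≠ a) (hvb : v ≠ b) :
    C (t a - t b) * (C (wt t v) * X v) - (C (t v - t b) * (C (wt t a) * X a) -
        C (t v - t a) * (C (wt t b) * X b)) ∈ momentIdeal n D t := by
  set T := ((Finset.univ.erase v).erase a).erase b with hT
  have haT : a ∈ Finset.univ.erase v := by simp [hva.symm]
  have hbT : b ∈ (Finset.univ.erase v).erase a := by simp [hvb.symm, hab.symm]
  have hTc : T.card + 1 = n := by
    have h1 := Finset.card_erase_of_mem (Finset.mem_univ v)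
    have h2 := Finset.card_erase_of_mem haT
    have h3 := Finset.card_erase_of_mem hbT
    rw [Finset.card_univ, hn] at h1
    have h4 : 0 < ((Finset.univ.erase v).erase a).card := Finset.card_pos.2 ⟨b, hbT⟩
    rw [← hT] at h3
    omega
  let q : Polynomial K := Polynomial.X * ∏ u ∈ T, (Polynomial.X - Polynomial.C (t u))
  have hqd : q.natDegree ≤ n := by
    refine (Polynomial.natDegree_mul_le).trans ?_
    rw [Polynomial.natDegree_X, Polynomial.natDegree_prod_of_monic _ _
      (fun u _ => Polynomial.monic_X_sub_C _)]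
    simp only [Polynomial.natDegree_X_sub_C, Finset.sum_const, smul_eq_mul, mul_one]
    omega
  have hq0 : q.coeff 0 = 0 := by simp [q]
  have hrel := poly_relation n D t q hqd hq0
  have hqe : ∀ w, q.eval (t w) = t w * ∏ u ∈ T, (t w - t u) := by
    intro w; simp [q, Polynomial.eval_prod]
  have hqT : ∀ w ∈ T, q.eval (t w) = 0 := by
    intro w hw
    rw [hqe, Finset.prod_eq_zero hw (sub_self _), mul_zero]
  have hsum : ∑ w, C (q.eval (t w)) * (X w : MvPolynomial V K) =
      C (q.eval (t v)) * X v + (C (q.eval (t a)) * X a + C (q.eval (t b)) * X b) := by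
    rw [← Finset.add_sum_erase _ _ (Finset.mem_univ v), ← Finset.add_sum_erase _ _ haT,
      ← Finset.add_sum_erase _ _ hbT]
    rw [Finset.sum_eq_zero (s := ((Finset.univ.erase v).erase a).erase b)]
    · ring
    · intro w hw
      rw [hqT w hw]; simp
  rw [hsum] at hrel
  -- products
  have pv : ∏ u ∈ Finset.univ.erase v, (t v - t u) =
      (t v - t a) * ((t v - t b) * ∏ u ∈ T, (t v - t u)) := by
    rw [← Finset.mul_prod_erase _ _ haT, ← Finset.mul_prod_erase _ _ hbT]
  have hua : Finset.univ.erase a = insert v (insert b T) := by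
    ext w
    simp only [hT, Finset.mem_erase, Finset.mem_univ, and_true, Finset.mem_insert, ne_eq]
    by_cases h1 : w = v <;> by_cases h2 : w = b <;> by_cases h3 : w = a <;> simp_all
  have hub : Finset.univ.erase b = insert v (insert a T) := by
    ext w
    simp only [hT, Finset.mem_erase, Finset.mem_univ, and_true, Finset.mem_insert, ne_eq]
    by_cases h1 : w = v <;> by_cases h2 : w = b <;> by_cases h3 : w = a <;> simp_all
  have pa : ∏ u ∈ Finset.univ.erase a, (t a - t u) =
      (t a - t v) * ((t a - t b) * ∏ u ∈ T, (t a - t u)) := by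
    rw [hua, Finset.prod_insert (by simp [hT, hvb]), Finset.prod_insert (by simp [hT])]
  have pb : ∏ u ∈ Finset.univ.erase b, (t b - t u) =
      (t b - t v) * ((t b - t a) * ∏ u ∈ T, (t b - t u)) := by
    rw [hub, Finset.prod_insert (by simp [hT, hva]), Finset.prod_insert (by simp [hT])]
  have e : C (t a - t b) * (C (wt t v) * X v) - (C (t v - t b) * (C (wt t a) * X a) -
      C (t v - t a) * (C (wt t b) * X b)) =
      C ((t a - t b) * ((t v - t a) * (t v - t b))) * (C (q.eval (t v)) * X v +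
        (C (q.eval (t a)) * X a + C (q.eval (t b)) * (X b : MvPolynomial V K))) := by
    simp only [wt, pv, pa, pb, hqe]
    simp only [C_mul, C_sub]
    ring
  rw [e]
  exact Ideal.mul_mem_left _ _ hrel

lemma three_term' (n : ℕ) (hn : Fintype.card V = n + 2) (D : Set (Finset V)) (t : V → K)
    (a b v : V) (hab : a ≠ b) :
    C (t a - t b) * (C (wt t v) * X v) - (C (t v - t b) * (C (wt t a) * X a) -
        C (t v - t a) * (C (wt t b) * X b)) ∈ momentIdeal n D t := by
  by_cases hva : v = a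
  · rw [hva, sub_self, C_0, zero_mul, sub_zero, sub_self]
    exact Ideal.zero_mem _
  · by_cases hvb : v = b
    · rw [hvb, sub_self, C_0, zero_mul, zero_sub, sub_neg_eq_add, ← add_mul, ← C_add]
      rw [show t a - t b + (t b - t a) = 0 by ring, C_0, zero_mul]
      exact Ideal.zero_mem _
    · exact three_term n hn D t a b v hab hva hvb

/-- All the classes `x_v` lie on a pencil. -/
lemma pencil (n : ℕ) (hn : Fintype.card V = n + 2) (D : Set (Finset V)) (t : V → K)
    (ht : Function.Injective t) (a b : V) (hab : a ≠ b) {R : Type} [CommRing R]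
    (π : MvPolynomial V K →+* R) (hπ : ∀ f ∈ momentIdeal n D t, π f = 0) :
    ∃ A B : R, ∀ v, π (C (wt t v)) * π (X v) = A + π (C (t v)) * B := by
  have htab : t a - t b ≠ 0 := sub_ne_zero.2 (ht.ne hab)
  have hinv : π (C (t a - t b)⁻¹) * (π (C (t a)) - π (C (t b))) = 1 := by
    rw [← map_sub, ← C_sub, ← map_mul, ← C_mul, inv_mul_cancel₀ htab, C_1, map_one]
  refine ⟨_, _, fun v => interp _ _ _ _ (π (C (wt t a)) * π (X a)) (π (C (wt t b)) * π (X b))
    _ hinv ?_⟩
  have h := hπ _ (three_term' n hn D t a b v hab)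
  simp only [map_sub, map_mul] at h
  exact sub_eq_zero.1 h

end relations

lemma one_not {K : Type} [Field K] (d m : ℕ) (hm : 1 ≤ m) (t : Fin m ⊕ Fin m → K) :
    (1 : MvPolynomial (Fin m ⊕ Fin m) K) ∉ momentIdeal d (joinBoundary m) t := by
  intro h
  have hle : momentIdeal d (joinBoundary m) t ≤ RingHom.ker (eval fun _ => (0 : K)) := by
    refine sup_le (Ideal.span_le.2 ?_) (Ideal.span_le.2 ?_)
    · rintro _ ⟨s, hs, rfl⟩
      obtain ⟨v, hv⟩ : s.Nonempty := by
        rw [Finset.nonempty_iff_ne_empty]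
        rintro rfl
        refine hs ⟨fun h => ?_, fun h => ?_⟩
        · exact absurd (h ⟨0, hm⟩) (by simp)
        · exact absurd (h ⟨0, hm⟩) (by simp)
      simp only [SetLike.mem_coe, RingHom.mem_ker, map_prod, eval_X]
      exact Finset.prod_eq_zero hv rfl
    · rintro _ ⟨j, rfl⟩
      simp [RingHom.mem_ker]
  simpa [RingHom.mem_ker] using hle h

/-- The reduction of the join of two simplex boundaries is a quotient of a polynomial ring in
two variables. -/
lemma fails_of {K : Type} [Field K] (m : ℕ) (hm : 2 ≤ m) (t : Fin m ⊕ Fin m → K)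
    (ht : Function.Injective t) (ht0 : ∀ v, t v ≠ 0)
    (H : ∀ (R : Type) [CommRing R] (ι : K →+* R) (A B : R),
      ∏ i, (A + ι (t (.inl i)) * B) = 0 → ∏ i, (A + ι (t (.inr i)) * B) = 0 →
      ∀ a b : R, (a * A + b * B) ^ (2 * (m - 1)) = 0) :
    (∀ l : MvPolynomial (Fin m ⊕ Fin m) K, l.IsHomogeneous 1 →
      l ^ (2 * (m - 1)) ∈ momentIdeal (2 * (m - 1)) (joinBoundary m) t) ∧
    ¬ Lefschetz (2 * (m - 1)) (momentIdeal (2 * (m - 1)) (joinBoundary m) t) := by
  classical
  set J := momentIdeal (2 * (m - 1)) (joinBoundary m) t with hJ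
  have hcard : Fintype.card (Fin m ⊕ Fin m) = 2 * (m - 1) + 2 := by
    simp only [Fintype.card_sum, Fintype.card_fin]; omega
  have hwt : ∀ v, wt t v ≠ 0 := by
    intro v
    refine mul_ne_zero (ht0 v) (Finset.prod_ne_zero_iff.2 fun u hu => ?_)
    exact sub_ne_zero.2 (ht.ne (Finset.ne_of_mem_erase hu).symm)
  obtain ⟨A, B, hAB⟩ := pencil (2 * (m - 1)) hcard (joinBoundary m) t ht (.inl ⟨0, by omega⟩)
    (.inr ⟨0, by omega⟩) (by simp) (Ideal.Quotient.mk J)
    (fun f hf => Ideal.Quotient.eq_zero_iff_mem.2 hf)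
  let ι : K →+* MvPolynomial (Fin m ⊕ Fin m) K ⧸ J := (Ideal.Quotient.mk J).comp C
  have hprod : ∀ g : Fin m → Fin m ⊕ Fin m, Function.Injective g →
      (Finset.univ.image g) ∉ joinBoundary m → ∏ i, (A + ι (t (g i)) * B) = 0 := by
    intro g hg hs
    have h0 : Ideal.Quotient.mk J (∏ v ∈ Finset.univ.image g, X v) = 0 :=
      Ideal.Quotient.eq_zero_iff_mem.2 (Ideal.mem_sup_left (Ideal.subset_span ⟨_, hs, rfl⟩))
    rw [Finset.prod_image (fun _ _ _ _ h => hg h), map_prod] at h0
    calc ∏ i, (A + ι (t (g i)) * B)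
        = ∏ i, (Ideal.Quotient.mk J (C (wt t (g i))) * Ideal.Quotient.mk J (X (g i))) :=
          Finset.prod_congr rfl fun i _ => (hAB (g i)).symm
      _ = 0 := by rw [Finset.prod_mul_distrib, h0, mul_zero]
  have h1 := hprod Sum.inl Sum.inl_injective (fun h => h.1 fun i => by simp)
  have h2 := hprod Sum.inr Sum.inr_injective (fun h => h.2 fun i => by simp)
  have hpow := H _ ι A B h1 h2
  have hlin : ∀ l : MvPolynomial (Fin m ⊕ Fin m) K, l.IsHomogeneous 1 →
      ∃ a b, Ideal.Quotient.mk J l = a * A + b * B := by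
    intro l hl
    have h' : l ∈ homogeneousSubmodule (Fin m ⊕ Fin m) K 1 := hl
    rw [homogeneousSubmodule_one_eq_span_X] at h'
    clear hl
    induction h' using Submodule.span_induction with
    | mem x hx =>
      obtain ⟨v, rfl⟩ := hx
      refine ⟨ι (wt t v)⁻¹, ι (wt t v)⁻¹ * ι (t v), ?_⟩
      have hi : ι (wt t v)⁻¹ * ι (wt t v) = 1 := by
        rw [← map_mul, inv_mul_cancel₀ (hwt v), map_one]
      calc Ideal.Quotient.mk J (X v) = (ι (wt t v)⁻¹ * ι (wt t v)) * Ideal.Quotient.mk J (X v) := by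
            rw [hi, one_mul]
        _ = ι (wt t v)⁻¹ * (A + ι (t v) * B) := by rw [mul_assoc]; exact congrArg _ (hAB v)
        _ = _ := by rw [mul_add, mul_assoc]
    | zero => exact ⟨0, 0, by simp⟩
    | add x y _ _ hx hy =>
      obtain ⟨a, b, hx⟩ := hx
      obtain ⟨a', b', hy⟩ := hy
      exact ⟨a + a', b + b', by rw [map_add, hx, hy]; ring⟩
    | smul r x _ hx =>
      obtain ⟨a, b, hx⟩ := hx
      refine ⟨ι r * a, ι r * b, ?_⟩
      rw [smul_eq_C_mul, map_mul, hx, mul_add, ← mul_assoc, ← mul_assoc]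
      rfl
  have hall : ∀ l : MvPolynomial (Fin m ⊕ Fin m) K, l.IsHomogeneous 1 →
      l ^ (2 * (m - 1)) ∈ J := by
    intro l hl
    obtain ⟨a, b, h⟩ := hlin l hl
    rw [← Ideal.Quotient.eq_zero_iff_mem, map_pow, h]
    exact hpow a b
  refine ⟨hall, ?_⟩
  rintro ⟨l, hl, h⟩
  have h3 := (h 0 (by omega)).1 1 (isHomogeneous_one _ _) (by
    rw [mul_one, mul_zero, Nat.sub_zero]; exact hall l hl)
  exact one_not _ m (by omega) t h3

/-! ### The three kinds of characteristic -/

lemma char_two {R : Type} [CommRing R] (h2 : (2 : R) = 0) (A B e e' i a b : R)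
    (hi : i * (e - e') = 1)
    (h : A ^ 3 + e * A ^ 2 * B + (e + 1) * A * B ^ 2 + B ^ 3 = 0)
    (h' : A ^ 3 + e' * A ^ 2 * B + (e' + 1) * A * B ^ 2 + B ^ 3 = 0) :
    (a * A + b * B) ^ 4 = 0 := by
  have h3 : A ^ 2 * B + A * B ^ 2 = 0 := by
    linear_combination i * (h - h') - (A ^ 2 * B + A * B ^ 2) * hi
  have h4 : A ^ 3 + A * B ^ 2 + B ^ 3 = 0 := by
    linear_combination h - e * h3
  have hA : A ^ 4 = 0 := by
    linear_combination A * h4 + (-B) * h3
  have hB : B ^ 4 = 0 := by
    linear_combination B * h4 - A * h3 + B * h3 - A * B ^ 3 * h2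
  have : (a * A + b * B) ^ 4 = a ^ 4 * A ^ 4 + b ^ 4 * B ^ 4 + 2 * (2 * a ^ 3 * b * A ^ 3 * B +
    3 * a ^ 2 * b ^ 2 * A ^ 2 * B ^ 2 + 2 * a * b ^ 3 * A * B ^ 3) := by ring
  rw [this, hA, hB, h2]; ring

lemma char_three {R : Type} [CommRing R] (h3 : (3 : R) = 0) (A B e e' i a b : R)
    (hi : i * (e - e') = 1)
    (h : A ^ 4 - e * A ^ 2 * B ^ 2 + B ^ 4 = 0)
    (h' : A ^ 4 - e' * A ^ 2 * B ^ 2 + B ^ 4 = 0) :
    (a * A + b * B) ^ 6 = 0 := by
  have h1 : A ^ 2 * B ^ 2 = 0 := by
    linear_combination (-i) * (h - h') - (A ^ 2 * B ^ 2) * hi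
  have h4 : A ^ 4 + B ^ 4 = 0 := by
    linear_combination h + e * h1
  have hA : A ^ 6 = 0 := by linear_combination A ^ 2 * h4 - B ^ 2 * h1
  have hB : B ^ 6 = 0 := by linear_combination B ^ 2 * h4 - A ^ 2 * h1
  have : (a * A + b * B) ^ 6 = a ^ 6 * A ^ 6 + b ^ 6 * B ^ 6 +
    (A ^ 2 * B ^ 2) * (15 * a ^ 4 * b ^ 2 * A ^ 2 + 20 * a ^ 3 * b ^ 3 * A * B +
      15 * a ^ 2 * b ^ 4 * B ^ 2) + 3 * (2 * a ^ 5 * b * A ^ 5 * B +
    2 * a * b ^ 5 * A * B ^ 5) := by ring
  rw [this, hA, hB, h1, h3]; ring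

lemma char_large {R : Type} [CommRing R] (p : ℕ) [hp : Fact p.Prime] [CharP R p] (hp5 : 5 ≤ p)
    (A B c i a b : R) (hi : i * (c - 1) = 1)
    (h : A ^ (p - 1) - B ^ (p - 1) = 0) (h' : A ^ (p - 1) - c * B ^ (p - 1) = 0) :
    (a * A + b * B) ^ (2 * (p - 1 - 1)) = 0 := by
  have hB : B ^ (p - 1) = 0 := by linear_combination i * (h - h') - B ^ (p - 1) * hi
  have hA : A ^ (p - 1) = 0 := by linear_combination h + hB
  rw [add_pow]
  refine Finset.sum_eq_zero fun j hj => ?_
  rw [Finset.mem_range] at hj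
  rcases lt_trichotomy j (p - 2) with hlt | heq | hgt
  · have : 2 * (p - 1 - 1) - j = (p - 1) + (p - 3 - j) := by omega
    rw [mul_pow b, this, pow_add B, hB]; ring
  · have hc : (((2 * (p - 1 - 1)).choose j : ℕ) : R) = 0 := by
      rw [CharP.cast_eq_zero_iff R p]
      subst heq
      have h1 : p ∣ (2 * (p - 2)).factorial := (hp.1.dvd_factorial).2 (by omega)
      have h2 : (2 * (p - 1 - 1)) = 2 * (p - 2) := by omega
      rw [h2]
      have h3 := Nat.choose_mul_factorial_mul_factorial (show p - 2 ≤ 2 * (p - 2) by omega)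
      rw [← h3] at h1
      have h4 : 2 * (p - 2) - (p - 2) = p - 2 := by omega
      rw [h4] at h1
      have h5 : ¬ p ∣ (p - 2).factorial := fun h => by
        have := (hp.1.dvd_factorial).1 h
        omega
      rcases (hp.1.dvd_mul).1 h1 with h6 | h6
      · rcases (hp.1.dvd_mul).1 h6 with h7 | h7
        · exact h7
        · exact absurd h7 h5
      · exact absurd h6 h5
    rw [hc, mul_zero]
  · have : j = (p - 1) + (j - (p - 1)) := by omega
    rw [mul_pow a, this, pow_add A, hA]; ring

/-- In an infinite field a nonzero polynomial has a non-root. -/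
lemma exists_nonroot {K : Type} [Field K] [Infinite K] (q : Polynomial K) (hq : q ≠ 0) :
    ∃ x, q.eval x ≠ 0 := by
  by_contra h
  push Not at h
  exact hq (Polynomial.funext (by simpa using h))

/-- The conclusion for one field and one `m`. -/
def Fails (K : Type) [Field K] (m : ℕ) : Prop :=
  ∃ t : Fin m ⊕ Fin m → K, Function.Injective t ∧ (∀ v, t v ≠ 0) ∧
    (∀ l : MvPolynomial (Fin m ⊕ Fin m) K, l.IsHomogeneous 1 →
      l ^ (2 * (m - 1)) ∈ momentIdeal (2 * (m - 1)) (joinBoundary m) t) ∧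
    ¬ Lefschetz (2 * (m - 1)) (momentIdeal (2 * (m - 1)) (joinBoundary m) t)

lemma fails_intro {K : Type} [Field K] (m : ℕ) (hm : 2 ≤ m) (f g : Fin m → K)
    (hf : Function.Injective f) (hg : Function.Injective g) (hfg : ∀ i j, f i ≠ g j)
    (hf0 : ∀ i, f i ≠ 0) (hg0 : ∀ i, g i ≠ 0)
    (H : ∀ (R : Type) [CommRing R] (ι : K →+* R) (A B : R),
      ∏ i, (A + ι (f i) * B) = 0 → ∏ i, (A + ι (g i) * B) = 0 →
      ∀ a b : R, (a * A + b * B) ^ (2 * (m - 1)) = 0) : Fails K m := by
  have hinj : Function.Injective (Sum.elim f g) := by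
    rintro (i | i) (j | j) h
    · exact congrArg _ (hf h)
    · exact absurd h (hfg i j)
    · exact absurd h.symm (hfg j i)
    · exact congrArg _ (hg h)
  have hne : ∀ v, Sum.elim f g v ≠ 0 := by
    rintro (i | i)
    · exact hf0 i
    · exact hg0 i
  exact ⟨Sum.elim f g, hinj, hne, fails_of m hm _ hinj hne H⟩

/-- The orbit of `x` under `z ↦ 1 / (z + 1)`. -/
def orb {K : Type} [Field K] (x : K) : Fin 3 → K := ![x, 1 / (x + 1), (x + 1) / x]

/-- The invariant of this orbit. -/
def orbInv {K : Type} [Field K] (x : K) : K := (x ^ 3 + x + 1) / (x ^ 2 + x)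

lemma orb_spec {K : Type} [Field K] (h2 : (2 : K) = 0) (x : K) (hx0 : x ≠ 0) (hx1 : x + 1 ≠ 0)
    (i : Fin 3) : orb x i ≠ 0 ∧ orb x i + 1 ≠ 0 ∧
      orb x i ^ 3 + orbInv x * orb x i ^ 2 + (orbInv x + 1) * orb x i + 1 = 0 := by
  have hxx : x ^ 2 + x ≠ 0 := by
    have : x ^ 2 + x = x * (x + 1) := by ring
    rw [this]; exact mul_ne_zero hx0 hx1
  fin_cases i
  · refine ⟨hx0, hx1, ?_⟩
    change x ^ 3 + orbInv x * x ^ 2 + (orbInv x + 1) * x + 1 = 0
    have : orbInv x * (x ^ 2 + x) = x ^ 3 + x + 1 := by unfold orbInv; field_simp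
    linear_combination this + (x ^ 3 + x + 1) * h2
  · refine ⟨by simp [orb, hx1], ?_, ?_⟩
    · change 1 / (x + 1) + 1 ≠ 0
      have : 1 / (x + 1) + 1 = x / (x + 1) := by
        field_simp; linear_combination h2
      rw [this]; exact div_ne_zero hx0 hx1
    · change (1 / (x + 1)) ^ 3 + orbInv x * (1 / (x + 1)) ^ 2 +
        (orbInv x + 1) * (1 / (x + 1)) + 1 = 0
      unfold orbInv
      field_simp
      linear_combination (x ^ 4 + 3 * x ^ 3 + 3 * x ^ 2 + 3 * x + 1) * h2
  · refine ⟨by simp [orb, hx0, hx1], ?_, ?_⟩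
    · change (x + 1) / x + 1 ≠ 0
      have : (x + 1) / x + 1 = 1 / x := by
        field_simp; linear_combination x * h2
      rw [this]; exact div_ne_zero one_ne_zero hx0
    · change ((x + 1) / x) ^ 3 + orbInv x * ((x + 1) / x) ^ 2 +
        (orbInv x + 1) * ((x + 1) / x) + 1 = 0
      unfold orbInv
      field_simp
      linear_combination (x ^ 4 + 2 * x ^ 3 + 3 * x ^ 2 + 3 * x + 1) * h2

lemma orb_inj {K : Type} [Field K] (h2 : (2 : K) = 0) (x : K) (hx0 : x ≠ 0) (hx1 : x + 1 ≠ 0)
    (hx2 : x ^ 2 + x + 1 ≠ 0) : Function.Injective (orb x) := by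
  have h01 : x ≠ 1 / (x + 1) := fun h => hx2 (by
    rw [eq_div_iff hx1] at h; linear_combination h + h2)
  have h02 : x ≠ (x + 1) / x := fun h => hx2 (by
    rw [eq_div_iff hx0] at h; linear_combination h + (x + 1) * h2)
  have h12 : 1 / (x + 1) ≠ (x + 1) / x := fun h => hx2 (by
    rw [div_eq_div_iff hx1 hx0] at h; linear_combination -h + x * h2 - x * h2 + 0 * h2)
  intro i j hij
  fin_cases i <;> fin_cases j <;> first
    | rfl
    | exact absurd hij h01
    | exact absurd hij h02
    | exact absurd hij h12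
    | exact absurd hij.symm h01
    | exact absurd hij.symm h02
    | exact absurd hij.symm h12

lemma orb_prod {K R : Type} [Field K] [CommRing R] (h2 : (2 : K) = 0) (x : K) (hx0 : x ≠ 0)
    (hx1 : x + 1 ≠ 0) (ι : K →+* R) (A B : R) :
    ∏ i, (A + ι (orb x i) * B) =
      A ^ 3 + ι (orbInv x) * A ^ 2 * B + (ι (orbInv x) + 1) * A * B ^ 2 + B ^ 3 := by
  have e1 : x + 1 / (x + 1) + (x + 1) / x = orbInv x := by
    unfold orbInv
    field_simp
    linear_combination (x ^ 2 + x) * h2
  have e2 : x * (1 / (x + 1)) + x * ((x + 1) / x) + 1 / (x + 1) * ((x + 1) / x) = orbInv x + 1 := by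
    unfold orbInv
    field_simp
    linear_combination (x ^ 2) * h2
  have e3 : x * (1 / (x + 1)) * ((x + 1) / x) = 1 := by field_simp
  rw [Fin.prod_univ_three]
  change (A + ι x * B) * (A + ι (1 / (x + 1)) * B) * (A + ι ((x + 1) / x) * B) = _
  have e1' := congrArg ι e1
  have e2' := congrArg ι e2
  have e3' := congrArg ι e3
  simp only [map_add, map_mul, map_one] at e1' e2' e3'
  linear_combination A ^ 2 * B * e1' + A * B ^ 2 * e2' + B ^ 3 * e3'

lemma case_two (K : Type) [Field K] [Infinite K] [CharP K 2] : Fails K 3 := by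
  have h2 : (2 : K) = 0 := by simpa using CharP.cast_eq_zero K 2
  -- choose `x`
  obtain ⟨x, hx⟩ := exists_nonroot (K := K)
    (Polynomial.X * (Polynomial.X + 1) * (Polynomial.X ^ 2 + Polynomial.X + 1)) (by
      refine mul_ne_zero (mul_ne_zero Polynomial.X_ne_zero ?_) ?_
      · exact (Polynomial.monic_X_add_C (1 : K)).ne_zero
      · intro h
        have := congrArg (Polynomial.eval 0) h
        simp at this)
  simp only [Polynomial.eval_mul, Polynomial.eval_X, Polynomial.eval_add, Polynomial.eval_one,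
    Polynomial.eval_pow] at hx
  have hx0 : x ≠ 0 := fun h => hx (by rw [h]; ring)
  have hx1 : x + 1 ≠ 0 := fun h => hx (by rw [h]; ring)
  have hx2 : x ^ 2 + x + 1 ≠ 0 := fun h => hx (by rw [h]; ring)
  obtain ⟨y, hy⟩ := exists_nonroot (K := K)
    (Polynomial.X * (Polynomial.X + 1) * (Polynomial.X ^ 2 + Polynomial.X + 1) *
      (Polynomial.X ^ 3 + Polynomial.X + 1 - Polynomial.C (orbInv x) *
        (Polynomial.X ^ 2 + Polynomial.X))) (by
      refine mul_ne_zero (mul_ne_zero (mul_ne_zero Polynomial.X_ne_zero ?_) ?_) ?_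
      · exact (Polynomial.monic_X_add_C (1 : K)).ne_zero
      · intro h
        have := congrArg (Polynomial.eval 0) h
        simp at this
      · intro h
        have := congrArg (Polynomial.eval 0) h
        simp at this)
  simp only [Polynomial.eval_mul, Polynomial.eval_X, Polynomial.eval_add, Polynomial.eval_one,
    Polynomial.eval_pow, Polynomial.eval_sub, Polynomial.eval_C] at hy
  have hy0 : y ≠ 0 := fun h => hy (by rw [h]; ring)
  have hy1 : y + 1 ≠ 0 := fun h => hy (by rw [h]; ring)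
  have hy2 : y ^ 2 + y + 1 ≠ 0 := fun h => hy (by rw [h]; ring)
  have hyx : orbInv x - orbInv y ≠ 0 := by
    intro h
    apply hy
    have hyy : y ^ 2 + y ≠ 0 := by
      have : y ^ 2 + y = y * (y + 1) := by ring
      rw [this]; exact mul_ne_zero hy0 hy1
    have h3 : orbInv y * (y ^ 2 + y) = y ^ 3 + y + 1 := by unfold orbInv; field_simp
    have h4 : y ^ 3 + y + 1 - orbInv x * (y ^ 2 + y) = 0 := by
      rw [← h3]; linear_combination (-(y ^ 2 + y)) * h
    rw [h4, mul_zero]
  refine fails_intro 3 (by norm_num) (orb x) (orb y) (orb_inj h2 x hx0 hx1 hx2)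
    (orb_inj h2 y hy0 hy1 hy2) ?_ (fun i => (orb_spec h2 x hx0 hx1 i).1)
    (fun i => (orb_spec h2 y hy0 hy1 i).1) ?_
  · intro i j h
    obtain ⟨a1, a2, a3⟩ := orb_spec h2 x hx0 hx1 i
    obtain ⟨b1, b2, b3⟩ := orb_spec h2 y hy0 hy1 j
    rw [← h] at b1 b2 b3
    have : (orbInv x - orbInv y) * (orb x i * (orb x i + 1)) = 0 := by
      linear_combination a3 - b3
    exact mul_ne_zero hyx (mul_ne_zero a1 a2) this
  · intro R _ ι A B h h' a b
    rw [orb_prod h2 x hx0 hx1] at h
    rw [orb_prod h2 y hy0 hy1] at h'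
    refine char_two (by have := congrArg ι h2; rwa [map_ofNat, map_zero] at this) A B (ι (orbInv x)) (ι (orbInv y))
      (ι (orbInv x - orbInv y)⁻¹) a b ?_ h h'
    rw [← map_sub, ← map_mul, inv_mul_cancel₀ hyx, map_one]

/-- The orbit of `z` under the Klein group generated by `z ↦ -z` and `z ↦ 1 / z`. -/
def kl {K : Type} [Field K] (z : K) : Fin 4 → K := ![z, -z, z⁻¹, -z⁻¹]

lemma kl_sq {K : Type} [Field K] (z : K) (i : Fin 4) :
    (kl z i) ^ 2 = z ^ 2 ∨ (kl z i) ^ 2 = (z ^ 2)⁻¹ := by
  fin_cases i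
  · left; rfl
  · left; change (-z) ^ 2 = _; ring
  · right; change (z⁻¹) ^ 2 = _; rw [inv_pow]
  · right; change (-z⁻¹) ^ 2 = _; rw [neg_sq, inv_pow]

lemma kl_ne {K : Type} [Field K] (z : K) (hz : z ≠ 0) (i : Fin 4) : kl z i ≠ 0 := by
  fin_cases i
  · exact hz
  · exact neg_ne_zero.2 hz
  · exact inv_ne_zero hz
  · exact neg_ne_zero.2 (inv_ne_zero hz)

lemma kl_inj {K : Type} [Field K] (h2 : (2 : K) ≠ 0) (z : K) (hz : z ≠ 0)
    (h1 : z ^ 2 - 1 ≠ 0) (h1' : z ^ 2 + 1 ≠ 0) : Function.Injective (kl z) := by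
  have a1 : z ≠ -z := fun h => by
    have : 2 * z = 0 := by linear_combination h
    exact mul_ne_zero h2 hz this
  have a2 : z ≠ z⁻¹ := fun h => h1 (by
    have : z * z = z * z⁻¹ := by rw [← h]
    rw [mul_inv_cancel₀ hz] at this
    linear_combination this)
  have a3 : z ≠ -z⁻¹ := fun h => h1' (by
    have : z * z = z * (-z⁻¹) := by rw [← h]
    rw [mul_neg, mul_inv_cancel₀ hz] at this
    linear_combination this)
  have a4 : -z ≠ z⁻¹ := fun h => a3 (by rw [← h, neg_neg])
  have a5 : -z ≠ -z⁻¹ := fun h => a2 (neg_injective h)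
  have a6 : z⁻¹ ≠ -z⁻¹ := fun h => by
    have : 2 * z⁻¹ = 0 := by linear_combination h
    exact mul_ne_zero h2 (inv_ne_zero hz) this
  intro i j hij
  fin_cases i <;> fin_cases j <;> first
    | rfl
    | exact absurd hij a1
    | exact absurd hij a2
    | exact absurd hij a3
    | exact absurd hij a4
    | exact absurd hij a5
    | exact absurd hij a6
    | exact absurd hij.symm a1
    | exact absurd hij.symm a2
    | exact absurd hij.symm a3
    | exact absurd hij.symm a4
    | exact absurd hij.symm a5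
    | exact absurd hij.symm a6

lemma kl_prod {K R : Type} [Field K] [CommRing R] (z : K) (hz : z ≠ 0) (ι : K →+* R) (A B : R) :
    ∏ i, (A + ι (kl z i) * B) =
      A ^ 4 - ι (z ^ 2 + (z⁻¹) ^ 2) * A ^ 2 * B ^ 2 + B ^ 4 := by
  have h : ι z * ι z⁻¹ = 1 := by rw [← map_mul, mul_inv_cancel₀ hz, map_one]
  rw [Fin.prod_univ_four]
  change (A + ι z * B) * (A + ι (-z) * B) * (A + ι z⁻¹ * B) * (A + ι (-z⁻¹) * B) = _
  simp only [map_neg, map_add, map_pow]
  linear_combination (ι z * ι z⁻¹ + 1) * B ^ 4 * h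

lemma case_three (K : Type) [Field K] [Infinite K] [CharP K 3] : Fails K 4 := by
  have h3 : (3 : K) = 0 := by simpa using CharP.cast_eq_zero K 3
  have h2 : (2 : K) ≠ 0 := fun h => by
    have : (1 : K) = 0 := by linear_combination h3 - h
    exact one_ne_zero this
  obtain ⟨z, hz⟩ := exists_nonroot (K := K)
    (Polynomial.X * (Polynomial.X ^ 2 - 1) * (Polynomial.X ^ 2 + 1)) (by
      refine mul_ne_zero (mul_ne_zero Polynomial.X_ne_zero ?_) ?_
      · intro h
        have := congrArg (Polynomial.eval 0) h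
        simp at this
      · intro h
        have := congrArg (Polynomial.eval 0) h
        simp at this)
  simp only [Polynomial.eval_mul, Polynomial.eval_X, Polynomial.eval_add, Polynomial.eval_one,
    Polynomial.eval_pow, Polynomial.eval_sub] at hz
  have hz0 : z ≠ 0 := fun h => hz (by rw [h]; ring)
  have hz1 : z ^ 2 - 1 ≠ 0 := fun h => hz (by rw [h]; ring)
  have hz2 : z ^ 2 + 1 ≠ 0 := fun h => hz (by rw [h]; ring)
  obtain ⟨w, hw⟩ := exists_nonroot (K := K)
    (Polynomial.X * (Polynomial.X ^ 2 - 1) * (Polynomial.X ^ 2 + 1) *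
      ((Polynomial.X ^ 2 - Polynomial.C (z ^ 2)) *
        (Polynomial.C (z ^ 2) * Polynomial.X ^ 2 - 1))) (by
      refine mul_ne_zero (mul_ne_zero (mul_ne_zero Polynomial.X_ne_zero ?_) ?_)
        (mul_ne_zero ?_ ?_)
      · intro h
        have := congrArg (Polynomial.eval 0) h
        simp at this
      · intro h
        have := congrArg (Polynomial.eval 0) h
        simp at this
      · intro h
        have := congrArg (Polynomial.eval 0) h
        simp [hz0] at this
      · intro h
        have := congrArg (Polynomial.eval 0) h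
        simp at this)
  simp only [Polynomial.eval_mul, Polynomial.eval_X, Polynomial.eval_add, Polynomial.eval_one,
    Polynomial.eval_pow, Polynomial.eval_sub, Polynomial.eval_C] at hw
  have hw0 : w ≠ 0 := fun h => hw (by rw [h]; ring)
  have hw1 : w ^ 2 - 1 ≠ 0 := fun h => hw (by rw [h]; ring)
  have hw2 : w ^ 2 + 1 ≠ 0 := fun h => hw (by rw [h]; ring)
  have hwz : w ^ 2 - z ^ 2 ≠ 0 := fun h => hw (by rw [h]; ring)
  have hwz' : z ^ 2 * w ^ 2 - 1 ≠ 0 := fun h => hw (by rw [h]; ring)
  have hzz : z ^ 2 ≠ 0 := pow_ne_zero 2 hz0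
  have hww : w ^ 2 ≠ 0 := pow_ne_zero 2 hw0
  have hd : (z ^ 2 + (z⁻¹) ^ 2) - (w ^ 2 + (w⁻¹) ^ 2) ≠ 0 := by
    have : (z ^ 2 + (z⁻¹) ^ 2) - (w ^ 2 + (w⁻¹) ^ 2) =
      -((w ^ 2 - z ^ 2) * (z ^ 2 * w ^ 2 - 1)) / (z ^ 2 * w ^ 2) := by
      field_simp
      ring
    rw [this]
    exact div_ne_zero (neg_ne_zero.2 (mul_ne_zero hwz hwz')) (mul_ne_zero hzz hww)
  refine fails_intro 4 (by norm_num) (kl z) (kl w) (kl_inj h2 z hz0 hz1 hz2)
    (kl_inj h2 w hw0 hw1 hw2) ?_ (kl_ne z hz0) (kl_ne w hw0) ?_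
  · intro i j h
    have c1 : z ^ 2 ≠ w ^ 2 := fun h => hwz (by rw [h]; ring)
    have c2 : z ^ 2 ≠ (w ^ 2)⁻¹ := fun h => hwz' (by
      rw [h, inv_mul_cancel₀ hww, sub_self])
    rcases kl_sq z i with a | a <;> rcases kl_sq w j with b | b
    · rw [h, b] at a; exact c1 a.symm
    · rw [h, b] at a; exact c2 a.symm
    · rw [h, b] at a
      exact c2 (by rw [a, inv_inv])
    · rw [h, b] at a
      exact c1 (inv_injective a).symm
  · intro R _ ι A B h h' a b
    rw [kl_prod z hz0] at h
    rw [kl_prod w hw0] at h'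
    refine char_three (by have := congrArg ι h3; rwa [map_ofNat, map_zero] at this) A B _ _
      (ι ((z ^ 2 + (z⁻¹) ^ 2) - (w ^ 2 + (w⁻¹) ^ 2))⁻¹) a b ?_ h h'
    rw [← map_sub, ← map_mul, inv_mul_cancel₀ hd, map_one]

lemma hom_prod {K R : Type} [Field K] [CommRing R] (m : ℕ) (g : Fin m → K) (e : K)
    (h : ∏ i, (Polynomial.X + Polynomial.C (g i)) = Polynomial.X ^ m - Polynomial.C e)
    (ι : K →+* R) (A B : R) : ∏ i, (A + ι (g i) * B) = A ^ m - ι e * B ^ m := by
  have h1 : Polynomial.homogenize (∏ i, (Polynomial.X + Polynomial.C (g i))) (∑ _i : Fin m, 1) =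
      Polynomial.homogenize (Polynomial.X ^ m - Polynomial.C e) (∑ _i : Fin m, 1) := by rw [h]
  rw [Polynomial.homogenize_finsetProd (n := fun _ => 1) (fun i _ => by
    refine (Polynomial.natDegree_add_le _ _).trans ?_
    simp)] at h1
  have h2 := congrArg (eval₂Hom ι ![A, B]) h1
  rw [map_prod] at h2
  simp only [Polynomial.homogenize_add, Polynomial.homogenize_X one_ne_zero,
    Polynomial.homogenize_C, Finset.sum_const, Finset.card_univ, Fintype.card_fin, smul_eq_mul,
    mul_one, Polynomial.homogenize_sub, Polynomial.homogenize_X_pow le_rfl] at h2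
  simpa using h2

lemma case_large (K : Type) [Field K] [Infinite K] (p : ℕ) [hp : Fact p.Prime] [CharP K p]
    (hp5 : 5 ≤ p) : Fails K (p - 1) := by
  let f : Fin (p - 1) → K := fun i => ((i.val + 1 : ℕ) : K)
  have hf0 : ∀ i, f i ≠ 0 := by
    intro i h
    have := (CharP.cast_eq_zero_iff K p _).1 h
    have := Nat.le_of_dvd (by omega) this
    have := i.2
    omega
  have hf : Function.Injective f := by
    intro i j h
    have h' := CharP.natCast_injOn_Iio K p (x₁ := i.val + 1) (x₂ := j.val + 1)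
      (by simp only [Set.mem_Iio]; have := i.2; omega)
      (by simp only [Set.mem_Iio]; have := j.2; omega) h
    exact Fin.ext (by omega)
  have hpow : ∀ i, f i ^ (p - 1) = 1 := by
    intro i
    have h1 : ((i.val + 1 : ℕ) : ZMod p) ≠ 0 := by
      intro h
      have := (CharP.cast_eq_zero_iff (ZMod p) p _).1 h
      have := Nat.le_of_dvd (by omega) this
      have := i.2
      omega
    have h2 := ZMod.pow_card_sub_one_eq_one h1
    have h3 := congrArg (ZMod.castHom (dvd_refl p) K) h2
    rw [map_pow, map_natCast, map_one] at h3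
    exact h3
  have heven : Even (p - 1) := hp.1.even_sub_one (by omega)
  have hprod : ∀ c : K, c ≠ 0 → ∏ i, (Polynomial.X + Polynomial.C (c * f i)) =
      Polynomial.X ^ (p - 1) - Polynomial.C (c ^ (p - 1)) := by
    classical
    intro c hc
    have hinj : Function.Injective (fun i => -(c * f i)) := fun i j h =>
      hf (mul_left_cancel₀ hc (neg_injective h))
    have hcard : (Finset.univ.image (fun i => -(c * f i))).card = p - 1 := by
      rw [Finset.card_image_of_injective _ hinj, Finset.card_univ, Fintype.card_fin]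
    have hm1 : (∏ i, (Polynomial.X + Polynomial.C (c * f i))).Monic :=
      Polynomial.monic_prod_of_monic _ _ (fun i _ => Polynomial.monic_X_add_C _)
    have hm2 : (Polynomial.X ^ (p - 1) - Polynomial.C (c ^ (p - 1))).Monic :=
      Polynomial.monic_X_pow_sub_C _ (by omega)
    have hd1 : (∏ i, (Polynomial.X + Polynomial.C (c * f i))).natDegree = p - 1 := by
      rw [Polynomial.natDegree_prod_of_monic _ _ (fun i _ => Polynomial.monic_X_add_C _)]
      simp only [Polynomial.natDegree_X_add_C, Finset.sum_const, Finset.card_univ,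
        Fintype.card_fin, smul_eq_mul, mul_one]
    have hd2 : (Polynomial.X ^ (p - 1) - Polynomial.C (c ^ (p - 1))).natDegree = p - 1 :=
      Polynomial.natDegree_X_pow_sub_C
    refine Polynomial.eq_of_degree_le_of_eval_finset_eq (Finset.univ.image (fun i => -(c * f i)))
      ?_ ?_ ?_ ?_
    · rw [Polynomial.degree_eq_natDegree hm1.ne_zero, hd1, hcard]
    · rw [Polynomial.degree_eq_natDegree hm1.ne_zero, Polynomial.degree_eq_natDegree hm2.ne_zero,
        hd1, hd2]
    · rw [hm1.leadingCoeff, hm2.leadingCoeff]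
    · intro x hx
      rw [Finset.mem_image] at hx
      obtain ⟨i, -, rfl⟩ := hx
      rw [Polynomial.eval_prod, Finset.prod_eq_zero (Finset.mem_univ i) (by simp)]
      simp only [Polynomial.eval_sub, Polynomial.eval_pow, Polynomial.eval_X, Polynomial.eval_C]
      rw [heven.neg_pow, mul_pow, hpow, mul_one, sub_self]
  obtain ⟨c, hc⟩ := exists_nonroot (K := K) (Polynomial.X * (Polynomial.X ^ (p - 1) - 1)) (by
    refine mul_ne_zero Polynomial.X_ne_zero ?_
    intro h
    have := congrArg (Polynomial.eval 0) h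
    rw [Polynomial.eval_sub, Polynomial.eval_pow, Polynomial.eval_X, Polynomial.eval_one,
      zero_pow (by omega), Polynomial.eval_zero] at this
    simp at this)
  simp only [Polynomial.eval_mul, Polynomial.eval_X, Polynomial.eval_one,
    Polynomial.eval_pow, Polynomial.eval_sub] at hc
  have hc0 : c ≠ 0 := fun h => hc (by rw [h]; ring)
  have hc1 : c ^ (p - 1) - 1 ≠ 0 := fun h => hc (by rw [h]; ring)
  refine fails_intro (p - 1) (by omega) f (fun i => c * f i) hf
    (fun i j h => hf (mul_left_cancel₀ hc0 h)) ?_ hf0 (fun i => mul_ne_zero hc0 (hf0 i)) ?_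
  · intro i j h
    apply hc1
    have h1 := congrArg (· ^ (p - 1)) h
    simp only [mul_pow, hpow, mul_one] at h1
    rw [← h1, sub_self]
  · intro R _ ι A B h h' a b
    have : CharP R p ∨ (1 : R) = 0 := by
      by_cases hR : (1 : R) = 0
      · exact Or.inr hR
      · left
        have : Nontrivial R := ⟨1, 0, hR⟩
        exact charP_of_injective_ringHom ι.injective p
    rcases this with hR | hR
    · have e1 := hom_prod (R := R) (p - 1) f 1 (by simpa using hprod 1 one_ne_zero) ι A B
      have e2 := hom_prod (R := R) (p - 1) (fun i => c * f i) (c ^ (p - 1)) (hprod c hc0) ι A B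
      rw [e1, map_one, one_mul] at h
      rw [e2] at h'
      refine char_large p hp5 A B (ι (c ^ (p - 1))) (ι (c ^ (p - 1) - 1)⁻¹) a b ?_ h h'
      rw [← map_one ι, ← map_sub, ← map_mul, inv_mul_cancel₀ hc1]
    · exact eq_zero_of_zero_eq_one (by rw [hR]) _

/-- **Every infinite field of positive characteristic.**  For every infinite field `K` of
characteristic `p > 0` there are `m` and pairwise distinct nonzero parameters for which the
moment-curve reduction of the sphere `∂Δ ∗ ∂Δ` (two simplices on `m` vertices each,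
`d = 2 (m - 1)`) fails the Lefschetz property; indeed every linear form has `d`-th power zero.
One can take `m = 3` for `p = 2`, `m = 4` for `p = 3` and `m = p - 1` for `p ≥ 5`. -/
theorem result (p : ℕ) (hp : p.Prime) (K : Type) [Field K] [Infinite K] [CharP K p] :
    Fails K (if p = 2 then 3 else if p = 3 then 4 else p - 1) := by
  have : Fact p.Prime := ⟨hp⟩
  by_cases h2 : p = 2
  · subst h2
    rw [if_pos rfl]
    exact case_two K
  · by_cases h3 : p = 3
    · subst h3
      rw [if_neg h2, if_pos rfl]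
      exact case_three K
    · rw [if_neg h2, if_neg h3]
      have h4 : p ≠ 4 := by rintro rfl; exact absurd hp (by decide)
      have := hp.two_le
      exact case_large K p (by omega)

end Pool.Agent.Results.MP_487945_co.EveryPrime
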